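import Pool.Agent.H.MP_683378_co.Split

set_option autoImplicit false

namespace Pool.Agent.H.MP_683378_co

noncomputable def lin {d : ℕ} (n : Fin d → ℤ) : (Fin d → ℝ) →ₗ[ℝ] ℝ :=
  Fintype.linearCombination ℝ (fun t => (n t : ℝ))

theorem lin_apply {d : ℕ} (n : Fin d → ℤ) (x : Fin d → ℝ) : lin n x = ∑ t, x t * n t := by
  simp [lin, Fintype.linearCombination_apply]

theorem lin_int {d : ℕ} (n z : Fin d → ℤ) (c : ℤ) :
    lin n (fun t => (z t : ℝ)) + (c : ℝ) = ((∑ t, z t * n t + c : ℤ) : ℝ) := by
  rw [lin_apply]; push_cast; rfl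

theorem base_of {d : ℕ} (N Z : Fin 6 → Fin 6 → Fin d → ℤ) (C : Fin 6 → Fin 6 → ℤ)
    (Y : Fin 6 → Fin d → ℤ) (adj : Fin 6 → Fin 6 → Prop)
    (h1 : ∀ i j, i ≠ j → (∀ t, N j i t = - N i j t) ∧ C j i = - C i j)
    (hN : ∀ i v, (∀ j, adj i j → lin (N i j) v ≤ 0) → v = 0)
    (hs : ∀ i j x, i ≠ j → (∀ k, adj i k → lin (N i k) x + C i k < 0) → lin (N i j) x + C i j < 0)
    (hZ0 : ∀ i j, adj i j → ∑ t, Z i j t * N i j t + C i j = 0)
    (hZ1 : ∀ i j k, adj i j → adj i k → k ≠ j → ∑ t, Z i j t * N i k t + C i k < 0)
    (hZ2 : ∀ i j k, adj i j → adj j k → k ≠ i → ∑ t, Z i j t * N j k t + C j k < 0)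
    (ha : adj 0 1 ∧ adj 0 2)
    (hI0 : ∀ k, adj 0 k → k ≠ 1 → k ≠ 2 → ∑ t, Y k t * N 0 k t + C 0 k = 0 ∧
      ∑ t, Y k t * N 0 1 t + C 0 1 = 0 ∧ ∑ t, Y k t * N 0 2 t + C 0 2 < 0)
    (hI1 : ∀ k m, adj 0 k → k ≠ 1 → k ≠ 2 → adj 0 m → ∑ t, Y k t * N 0 m t + C 0 m ≤ 0)
    (hI2 : ∀ k m, adj 0 k → k ≠ 1 → k ≠ 2 → adj k m → ∑ t, Y k t * N k m t + C k m ≤ 0) :
    CM (Fin d → ℝ) (Fin 6) adj := by
  refine ⟨fun i j => lin (N i j), fun i j => C i j, fun i j h x => ?_, hN, hs,
    fun i j h => ⟨fun t => Z i j t, ?_, fun k a b => ?_, fun k a b => ?_⟩, 0, 1, 2, ha.1, ha.2,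
    by decide, fun k a b c => ⟨fun t => Y k t, ?_, ?_, ?_, fun m hm => ?_, fun m hm => ?_⟩⟩
  · simp [lin_apply, (h1 i j h).1, (h1 i j h).2]; ring
  · rw [lin_int]; exact_mod_cast hZ0 i j h
  · rw [lin_int]; exact_mod_cast hZ1 i j k h a b
  · rw [lin_int]; exact_mod_cast hZ2 i j k h a b
  · rw [lin_int]; exact_mod_cast (hI0 k a b c).1
  · rw [lin_int]; exact_mod_cast (hI0 k a b c).2.1
  · rw [lin_int]; exact_mod_cast (hI0 k a b c).2.2
  · rw [lin_int]; exact_mod_cast hI1 k m a b c hm
  · rw [lin_int]; exact_mod_cast hI2 k m a b c hm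

theorem l3 (n : Fin 3 → ℤ) (v : Fin 3 → ℝ) (a b c : ℤ) (e : n 0 = a ∧ n 1 = b ∧ n 2 = c) :
    lin n v = v 0 * a + v 1 * b + v 2 * c := by
  obtain ⟨rfl, rfl, rfl⟩ := e
  rw [lin_apply, Fin.sum_univ_three]

theorem l4 (n : Fin 4 → ℤ) (v : Fin 4 → ℝ) (a b c d : ℤ)
    (e : n 0 = a ∧ n 1 = b ∧ n 2 = c ∧ n 3 = d) :
    lin n v = v 0 * a + v 1 * b + v 2 * c + v 3 * d := by
  obtain ⟨rfl, rfl, rfl, rfl⟩ := e
  rw [lin_apply, Fin.sum_univ_four]

def N3 (i j : Fin 6) (t : Fin 3) : ℤ :=
  (([[], [59, -20, 78], [-43, 14, -89], [-96, 23, -14], [-90, 23, -37], [-76, 38, 52], [-59, 20, -78], [], [-65, -32, -69], [-44, -73, -52], [42, -87, 24], [-33, 94, -12], [43, -14, 89], [65, 32, 69], [], [-83, -54, -15], [85, 36, 39], [56, 72, -41], [96, -23, 14], [44, 73, 52], [83, 54, 15], [], [-67, -65, -36], [73, -49, -47], [90, -23, 37], [-42, 87, -24], [-85, -36, -39], [67, 65, 36], [], [24, 94, -25], [76, -38, -52], [33, -94, 12], [-56, -72, 41], [-73, 49, 47], [-24, -94, 25], []] : List (List ℤ)).getD (6 * i.val + j.val) []).getD t.val 0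

def Z3 (i j : Fin 6) (t : Fin 3) : ℤ :=
  (([[], [13388816, 26777632, 16736020], [15062418, -14225617, -15899219], [], [7531209, -3347204, 5020806], [15899219, 40166448, 16736020], [13388816, 26777632, 16736020], [], [], [-27614433, 19246423, 53555264], [-36819244, 0, 90374508], [4184005, 30124836, 26777632], [15062418, -14225617, -15899219], [], [], [-33472040, 47697657, 15062418], [13388816, -5857607, -15899219], [-20083224, 35145642, 6694408], [], [-27614433, 19246423, 53555264], [-33472040, 47697657, 15062418], [], [-25940831, 0, 76148891], [-35145642, 49371259, 7531209], [7531209, -3347204, 5020806], [-36819244, 0, 90374508], [13388816, -5857607, -15899219], [-25940831, 0, 76148891], [], [], [15899219, 40166448, 16736020], [4184005, 30124836, 26777632], [-20083224, 35145642, 6694408], [-35145642, 49371259, 7531209], [], []] : List (List ℤ)).getD (6 * i.val + j.val) []).getD t.val 0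

def C3 (i j : Fin 6) : ℤ :=
  ([0, -1559797064, -568187879, 389949266, 940564324, -1188257420, 1559797064, 0, 1547245049, 2974827555, -622579944, -2372330835, 568187879, -1547245049, 0, 23430428, -307105967, -1131354952, -389949266, -2974827555, -23430428, 0, 1003324399, 5338790380, -940564324, 622579944, 307105967, -1003324399, 0, -1579880288, 1188257420, 2372330835, 1131354952, -5338790380, 1579880288, 0] : List ℤ).getD (6 * i.val + j.val) 0

def Y3 (i : Fin 6) (t : Fin 3) : ℤ :=
  (([[], [], [], [], [2688766, -2510403, 17319895], [16590910, 40166448, 17746953]] : List (List ℤ)).getD i.val []).getD t.val 0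

def opp (i : Fin 6) : Fin 6 := ([3, 2, 1, 0, 5, 4] : List (Fin 6)).getD i.val 0

def adj3 (i j : Fin 6) : Prop := i ≠ j ∧ opp i ≠ j

instance : DecidableRel adj3 := fun i j => by unfold adj3; infer_instance

theorem hN3 : ∀ (i : Fin 6) (v : Fin 3 → ℝ), (∀ j, adj3 i j → lin (N3 i j) v ≤ 0) → v = 0 := by
  intro i v h
  match i, h with
  | 0, h =>
    have h1 := h 1 (by decide)
    rw [l3 _ v 59 (-20) 78 (by decide +kernel)] at h1
    have h2 := h 2 (by decide)
    rw [l3 _ v (-43) 14 (-89) (by decide +kernel)] at h2
    have h4 := h 4 (by decide)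
    rw [l3 _ v (-90) 23 (-37) (by decide +kernel)] at h4
    have h5 := h 5 (by decide)
    rw [l3 _ v (-76) 38 52 (by decide +kernel)] at h5
    push_cast at h1 h2 h4 h5
    have e0 : v 0 = 0 := le_antisymm (by linarith) (by linarith)
    have e1 : v 1 = 0 := le_antisymm (by linarith) (by linarith)
    have e2 : v 2 = 0 := le_antisymm (by linarith) (by linarith)
    funext t
    fin_cases t
    exacts [e0, e1, e2]
  | 1, h =>
    have h0 := h 0 (by decide)
    rw [l3 _ v (-59) 20 (-78) (by decide +kernel)] at h0
    have h3 := h 3 (by decide)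
    rw [l3 _ v (-44) (-73) (-52) (by decide +kernel)] at h3
    have h4 := h 4 (by decide)
    rw [l3 _ v 42 (-87) 24 (by decide +kernel)] at h4
    have h5 := h 5 (by decide)
    rw [l3 _ v (-33) 94 (-12) (by decide +kernel)] at h5
    push_cast at h0 h3 h4 h5
    have e0 : v 0 = 0 := le_antisymm (by linarith) (by linarith)
    have e1 : v 1 = 0 := le_antisymm (by linarith) (by linarith)
    have e2 : v 2 = 0 := le_antisymm (by linarith) (by linarith)
    funext t
    fin_cases t
    exacts [e0, e1, e2]
  | 2, h =>
    have h0 := h 0 (by decide)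
    rw [l3 _ v 43 (-14) 89 (by decide +kernel)] at h0
    have h3 := h 3 (by decide)
    rw [l3 _ v (-83) (-54) (-15) (by decide +kernel)] at h3
    have h4 := h 4 (by decide)
    rw [l3 _ v 85 36 39 (by decide +kernel)] at h4
    have h5 := h 5 (by decide)
    rw [l3 _ v 56 72 (-41) (by decide +kernel)] at h5
    push_cast at h0 h3 h4 h5
    have e0 : v 0 = 0 := le_antisymm (by linarith) (by linarith)
    have e1 : v 1 = 0 := le_antisymm (by linarith) (by linarith)
    have e2 : v 2 = 0 := le_antisymm (by linarith) (by linarith)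
    funext t
    fin_cases t
    exacts [e0, e1, e2]
  | 3, h =>
    have h1 := h 1 (by decide)
    rw [l3 _ v 44 73 52 (by decide +kernel)] at h1
    have h2 := h 2 (by decide)
    rw [l3 _ v 83 54 15 (by decide +kernel)] at h2
    have h4 := h 4 (by decide)
    rw [l3 _ v (-67) (-65) (-36) (by decide +kernel)] at h4
    have h5 := h 5 (by decide)
    rw [l3 _ v 73 (-49) (-47) (by decide +kernel)] at h5
    push_cast at h1 h2 h4 h5
    have e0 : v 0 = 0 := le_antisymm (by linarith) (by linarith)
    have e1 : v 1 = 0 := le_antisymm (by linarith) (by linarith)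
    have e2 : v 2 = 0 := le_antisymm (by linarith) (by linarith)
    funext t
    fin_cases t
    exacts [e0, e1, e2]
  | 4, h =>
    have h0 := h 0 (by decide)
    rw [l3 _ v 90 (-23) 37 (by decide +kernel)] at h0
    have h1 := h 1 (by decide)
    rw [l3 _ v (-42) 87 (-24) (by decide +kernel)] at h1
    have h2 := h 2 (by decide)
    rw [l3 _ v (-85) (-36) (-39) (by decide +kernel)] at h2
    have h3 := h 3 (by decide)
    rw [l3 _ v 67 65 36 (by decide +kernel)] at h3
    push_cast at h0 h1 h2 h3
    have e0 : v 0 = 0 := le_antisymm (by linarith) (by linarith)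
    have e1 : v 1 = 0 := le_antisymm (by linarith) (by linarith)
    have e2 : v 2 = 0 := le_antisymm (by linarith) (by linarith)
    funext t
    fin_cases t
    exacts [e0, e1, e2]
  | 5, h =>
    have h0 := h 0 (by decide)
    rw [l3 _ v 76 (-38) (-52) (by decide +kernel)] at h0
    have h1 := h 1 (by decide)
    rw [l3 _ v 33 (-94) 12 (by decide +kernel)] at h1
    have h2 := h 2 (by decide)
    rw [l3 _ v (-56) (-72) 41 (by decide +kernel)] at h2
    have h3 := h 3 (by decide)
    rw [l3 _ v (-73) 49 47 (by decide +kernel)] at h3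
    push_cast at h0 h1 h2 h3
    have e0 : v 0 = 0 := le_antisymm (by linarith) (by linarith)
    have e1 : v 1 = 0 := le_antisymm (by linarith) (by linarith)
    have e2 : v 2 = 0 := le_antisymm (by linarith) (by linarith)
    funext t
    fin_cases t
    exacts [e0, e1, e2]

theorem hs3 : ∀ (i : Fin 6) (x : Fin 3 → ℝ), (∀ k, adj3 i k → lin (N3 i k) x + C3 i k < 0) →
    lin (N3 i (opp i)) x + C3 i (opp i) < 0 := by
  intro i x h
  match i, h with
  | 0, h =>
    have h1 := h 1 (by decide)
    rw [l3 _ x 59 (-20) 78 (by decide +kernel),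
      (by decide +kernel : C3 0 1 = -1559797064)] at h1
    have h2 := h 2 (by decide)
    rw [l3 _ x (-43) 14 (-89) (by decide +kernel),
      (by decide +kernel : C3 0 2 = -568187879)] at h2
    have h4 := h 4 (by decide)
    rw [l3 _ x (-90) 23 (-37) (by decide +kernel),
      (by decide +kernel : C3 0 4 = 940564324)] at h4
    have h5 := h 5 (by decide)
    rw [l3 _ x (-76) 38 52 (by decide +kernel),
      (by decide +kernel : C3 0 5 = -1188257420)] at h5
    rw [l3 _ x (-96) 23 (-14) (by decide +kernel),
      (by decide +kernel : C3 0 (opp 0) = 389949266)]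
    push_cast at h1 h2 h4 h5 ⊢
    linarith
  | 1, h =>
    have h0 := h 0 (by decide)
    rw [l3 _ x (-59) 20 (-78) (by decide +kernel),
      (by decide +kernel : C3 1 0 = 1559797064)] at h0
    have h3 := h 3 (by decide)
    rw [l3 _ x (-44) (-73) (-52) (by decide +kernel),
      (by decide +kernel : C3 1 3 = 2974827555)] at h3
    have h4 := h 4 (by decide)
    rw [l3 _ x 42 (-87) 24 (by decide +kernel),
      (by decide +kernel : C3 1 4 = -622579944)] at h4
    have h5 := h 5 (by decide)
    rw [l3 _ x (-33) 94 (-12) (by decide +kernel),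
      (by decide +kernel : C3 1 5 = -2372330835)] at h5
    rw [l3 _ x (-65) (-32) (-69) (by decide +kernel),
      (by decide +kernel : C3 1 (opp 1) = 1547245049)]
    push_cast at h0 h3 h4 h5 ⊢
    linarith
  | 2, h =>
    have h0 := h 0 (by decide)
    rw [l3 _ x 43 (-14) 89 (by decide +kernel),
      (by decide +kernel : C3 2 0 = 568187879)] at h0
    have h3 := h 3 (by decide)
    rw [l3 _ x (-83) (-54) (-15) (by decide +kernel),
      (by decide +kernel : C3 2 3 = 23430428)] at h3
    have h4 := h 4 (by decide)
    rw [l3 _ x 85 36 39 (by decide +kernel),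
      (by decide +kernel : C3 2 4 = -307105967)] at h4
    have h5 := h 5 (by decide)
    rw [l3 _ x 56 72 (-41) (by decide +kernel),
      (by decide +kernel : C3 2 5 = -1131354952)] at h5
    rw [l3 _ x 65 32 69 (by decide +kernel),
      (by decide +kernel : C3 2 (opp 2) = -1547245049)]
    push_cast at h0 h3 h4 h5 ⊢
    linarith
  | 3, h =>
    have h1 := h 1 (by decide)
    rw [l3 _ x 44 73 52 (by decide +kernel),
      (by decide +kernel : C3 3 1 = -2974827555)] at h1
    have h2 := h 2 (by decide)
    rw [l3 _ x 83 54 15 (by decide +kernel),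
      (by decide +kernel : C3 3 2 = -23430428)] at h2
    have h4 := h 4 (by decide)
    rw [l3 _ x (-67) (-65) (-36) (by decide +kernel),
      (by decide +kernel : C3 3 4 = 1003324399)] at h4
    have h5 := h 5 (by decide)
    rw [l3 _ x 73 (-49) (-47) (by decide +kernel),
      (by decide +kernel : C3 3 5 = 5338790380)] at h5
    rw [l3 _ x 96 (-23) 14 (by decide +kernel),
      (by decide +kernel : C3 3 (opp 3) = -389949266)]
    push_cast at h1 h2 h4 h5 ⊢
    linarith
  | 4, h =>
    have h0 := h 0 (by decide)
    rw [l3 _ x 90 (-23) 37 (by decide +kernel),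
      (by decide +kernel : C3 4 0 = -940564324)] at h0
    have h1 := h 1 (by decide)
    rw [l3 _ x (-42) 87 (-24) (by decide +kernel),
      (by decide +kernel : C3 4 1 = 622579944)] at h1
    have h2 := h 2 (by decide)
    rw [l3 _ x (-85) (-36) (-39) (by decide +kernel),
      (by decide +kernel : C3 4 2 = 307105967)] at h2
    have h3 := h 3 (by decide)
    rw [l3 _ x 67 65 36 (by decide +kernel),
      (by decide +kernel : C3 4 3 = -1003324399)] at h3
    rw [l3 _ x 24 94 (-25) (by decide +kernel),
      (by decide +kernel : C3 4 (opp 4) = -1579880288)]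
    push_cast at h0 h1 h2 h3 ⊢
    linarith
  | 5, h =>
    have h0 := h 0 (by decide)
    rw [l3 _ x 76 (-38) (-52) (by decide +kernel),
      (by decide +kernel : C3 5 0 = 1188257420)] at h0
    have h1 := h 1 (by decide)
    rw [l3 _ x 33 (-94) 12 (by decide +kernel),
      (by decide +kernel : C3 5 1 = 2372330835)] at h1
    have h2 := h 2 (by decide)
    rw [l3 _ x (-56) (-72) 41 (by decide +kernel),
      (by decide +kernel : C3 5 2 = 1131354952)] at h2
    have h3 := h 3 (by decide)
    rw [l3 _ x (-73) 49 47 (by decide +kernel),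
      (by decide +kernel : C3 5 3 = -5338790380)] at h3
    rw [l3 _ x (-24) (-94) 25 (by decide +kernel),
      (by decide +kernel : C3 5 (opp 5) = 1579880288)]
    push_cast at h0 h1 h2 h3 ⊢
    linarith

theorem base3 : CM (Fin 3 → ℝ) (Fin 6) adj3 :=
  base_of N3 Z3 C3 Y3 adj3 (by decide +kernel) hN3 (fun i j x hij h => by
      by_cases e : opp i = j
      · rw [← e]; exact hs3 i x h
      · exact h j ⟨hij, e⟩)
    (by decide +kernel) (by decide +kernel) (by decide +kernel) (by decide +kernel)
    (by decide +kernel) (by decide +kernel) (by decide +kernel)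

def N4 (i j : Fin 6) (t : Fin 4) : ℤ :=
  (([[], [123, 1, -104, -119], [20, -143, 132, -40], [97, -63, 117, -113], [132, 22, -132, -69], [-144, 7, 103, 92], [-123, -1, 104, 119], [], [-97, 170, -4, 42], [-51, -7, -124, -148], [147, -11, 90, 100], [134, 51, 52, 130], [-20, 143, -132, 40], [97, -170, 4, -42], [], [-158, 110, -46, 30], [-150, -5, -116, -64], [-95, 124, 121, 32], [-97, 63, -117, 113], [51, 7, 124, 148], [158, -110, 46, -30], [], [-33, 44, 130, -142], [-60, 40, 104, -155], [-132, -22, 132, 69], [-147, 11, -90, -100], [150, 5, 116, 64], [33, -44, -130, 142], [], [-27, -95, -169, 40], [144, -7, -103, -92], [-134, -51, -52, -130], [95, -124, -121, -32], [60, -40, -104, 155], [27, 95, 169, -40], []] : List (List ℤ)).getD (6 * i.val + j.val) []).getD t.val 0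

def Z4 (i j : Fin 6) (t : Fin 4) : ℤ :=
  (([[], [-7262225100, -47069977500, -16138278000, 33083469900], [32814498600, -28241986500, 9145024200, 67511796300], [-9145024200, -30931699500, -2420741700, 20172847500], [7262225100, 22862560500, 14524450200, 22862560500], [3496626900, 14793421500, 12103708500, 21248732700], [-7262225100, -47069977500, -16138278000, 33083469900], [], [13448565000, -19903876200, 37924953300, -20710790100], [2958684300, -34428326400, 8338110300, 7800167700], [14524450200, -28510957800, 32814498600, -16407249300], [2689713000, -30662728200, 37655982000, -4572512100], [32814498600, -28241986500, 9145024200, 67511796300], [13448565000, -19903876200, 37924953300, -20710790100], [], [30393756900, -14255478900, 4572512100, -268971300], [19634904900, -17752105800, 26359187400, -15331364100], [18021077100, -25821244800, 36849068100, 21786675300], [-9145024200, -30931699500, -2420741700, 20172847500], [2958684300, -34428326400, 8338110300, 7800167700], [30393756900, -14255478900, 4572512100, -268971300], [], [33890383800,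 48414834000, -7800167700, 6186339900], [-8876052900, -11027823300, 3496626900, 14255478900], [7262225100, 22862560500, 14524450200, 22862560500], [14524450200, -28510957800, 32814498600, -16407249300], [19634904900, -17752105800, 26359187400, -15331364100], [33890383800, 48414834000, -7800167700, 6186339900], [], [5110454700, 28241986500, 11834737200, 23938445700], [3496626900, 14793421500, 12103708500, 21248732700], [2689713000, -30662728200, 37655982000, -4572512100], [18021077100, -25821244800, 36849068100, 21786675300], [-8876052900, -11027823300, 3496626900, 14255478900], [5110454700, 28241986500, 11834737200, 23938445700], []] : List (List ℤ)).getD (6 * i.val + j.val) []).getD t.val 0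

def C4 (i j : Fin 6) : ℤ :=
  ([0, 3198875670900, -3201565383900, 1501128825300, 2033154056700, -2801605060800, -3198875670900, 0, 5709722756400, 2098245111300, -3761294659200, -160306894800, 3201565383900, -5709722756400, 0, 6588720964800, 4932933642000, -242074170000, -1501128825300, -2098245111300, -6588720964800, 0, 880612036200, 1754499789900, -2033154056700, 3761294659200, -4932933642000, -880612036200, 0, 3863503753200, 2801605060800, 160306894800, 242074170000, -1754499789900, -3863503753200, 0] : List ℤ).getD (6 * i.val + j.val) 0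

def Y4 (i : Fin 6) (t : Fin 4) : ℤ :=
  (([[], [], [], [-8607081600, -23938445700, -763826112, 18451294992], [5917368600, 23400503100, 14486651725, 20533619600], [-2639153790, 3765598200, 7531196400, 17603201070]] : List (List ℤ)).getD i.val []).getD t.val 0

theorem hN4 : ∀ (i : Fin 6) (v : Fin 4 → ℝ), (∀ j, i ≠ j → lin (N4 i j) v ≤ 0) → v = 0 := by
  intro i v h
  match i, h with
  | 0, h =>
    have h1 := h 1 (by decide)
    rw [l4 _ v 123 1 (-104) (-119) (by decide +kernel)] at h1
    have h2 := h 2 (by decide)
    rw [l4 _ v 20 (-143) 132 (-40) (by decide +kernel)] at h2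
    have h3 := h 3 (by decide)
    rw [l4 _ v 97 (-63) 117 (-113) (by decide +kernel)] at h3
    have h4 := h 4 (by decide)
    rw [l4 _ v 132 22 (-132) (-69) (by decide +kernel)] at h4
    have h5 := h 5 (by decide)
    rw [l4 _ v (-144) 7 103 92 (by decide +kernel)] at h5
    push_cast at h1 h2 h3 h4 h5
    have e0 : v 0 = 0 := le_antisymm (by linarith) (by linarith)
    have e1 : v 1 = 0 := le_antisymm (by linarith) (by linarith)
    have e2 : v 2 = 0 := le_antisymm (by linarith) (by linarith)
    have e3 : v 3 = 0 := le_antisymm (by linarith) (by linarith)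
    funext t
    fin_cases t
    exacts [e0, e1, e2, e3]
  | 1, h =>
    have h0 := h 0 (by decide)
    rw [l4 _ v (-123) (-1) 104 119 (by decide +kernel)] at h0
    have h2 := h 2 (by decide)
    rw [l4 _ v (-97) 170 (-4) 42 (by decide +kernel)] at h2
    have h3 := h 3 (by decide)
    rw [l4 _ v (-51) (-7) (-124) (-148) (by decide +kernel)] at h3
    have h4 := h 4 (by decide)
    rw [l4 _ v 147 (-11) 90 100 (by decide +kernel)] at h4
    have h5 := h 5 (by decide)
    rw [l4 _ v 134 51 52 130 (by decide +kernel)] at h5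
    push_cast at h0 h2 h3 h4 h5
    have e0 : v 0 = 0 := le_antisymm (by linarith) (by linarith)
    have e1 : v 1 = 0 := le_antisymm (by linarith) (by linarith)
    have e2 : v 2 = 0 := le_antisymm (by linarith) (by linarith)
    have e3 : v 3 = 0 := le_antisymm (by linarith) (by linarith)
    funext t
    fin_cases t
    exacts [e0, e1, e2, e3]
  | 2, h =>
    have h0 := h 0 (by decide)
    rw [l4 _ v (-20) 143 (-132) 40 (by decide +kernel)] at h0
    have h1 := h 1 (by decide)
    rw [l4 _ v 97 (-170) 4 (-42) (by decide +kernel)] at h1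
    have h3 := h 3 (by decide)
    rw [l4 _ v (-158) 110 (-46) 30 (by decide +kernel)] at h3
    have h4 := h 4 (by decide)
    rw [l4 _ v (-150) (-5) (-116) (-64) (by decide +kernel)] at h4
    have h5 := h 5 (by decide)
    rw [l4 _ v (-95) 124 121 32 (by decide +kernel)] at h5
    push_cast at h0 h1 h3 h4 h5
    have e0 : v 0 = 0 := le_antisymm (by linarith) (by linarith)
    have e1 : v 1 = 0 := le_antisymm (by linarith) (by linarith)
    have e2 : v 2 = 0 := le_antisymm (by linarith) (by linarith)
    have e3 : v 3 = 0 := le_antisymm (by linarith) (by linarith)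
    funext t
    fin_cases t
    exacts [e0, e1, e2, e3]
  | 3, h =>
    have h0 := h 0 (by decide)
    rw [l4 _ v (-97) 63 (-117) 113 (by decide +kernel)] at h0
    have h1 := h 1 (by decide)
    rw [l4 _ v 51 7 124 148 (by decide +kernel)] at h1
    have h2 := h 2 (by decide)
    rw [l4 _ v 158 (-110) 46 (-30) (by decide +kernel)] at h2
    have h4 := h 4 (by decide)
    rw [l4 _ v (-33) 44 130 (-142) (by decide +kernel)] at h4
    have h5 := h 5 (by decide)
    rw [l4 _ v (-60) 40 104 (-155) (by decide +kernel)] at h5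
    push_cast at h0 h1 h2 h4 h5
    have e0 : v 0 = 0 := le_antisymm (by linarith) (by linarith)
    have e1 : v 1 = 0 := le_antisymm (by linarith) (by linarith)
    have e2 : v 2 = 0 := le_antisymm (by linarith) (by linarith)
    have e3 : v 3 = 0 := le_antisymm (by linarith) (by linarith)
    funext t
    fin_cases t
    exacts [e0, e1, e2, e3]
  | 4, h =>
    have h0 := h 0 (by decide)
    rw [l4 _ v (-132) (-22) 132 69 (by decide +kernel)] at h0
    have h1 := h 1 (by decide)
    rw [l4 _ v (-147) 11 (-90) (-100) (by decide +kernel)] at h1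
    have h2 := h 2 (by decide)
    rw [l4 _ v 150 5 116 64 (by decide +kernel)] at h2
    have h3 := h 3 (by decide)
    rw [l4 _ v 33 (-44) (-130) 142 (by decide +kernel)] at h3
    have h5 := h 5 (by decide)
    rw [l4 _ v (-27) (-95) (-169) 40 (by decide +kernel)] at h5
    push_cast at h0 h1 h2 h3 h5
    have e0 : v 0 = 0 := le_antisymm (by linarith) (by linarith)
    have e1 : v 1 = 0 := le_antisymm (by linarith) (by linarith)
    have e2 : v 2 = 0 := le_antisymm (by linarith) (by linarith)
    have e3 : v 3 = 0 := le_antisymm (by linarith) (by linarith)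
    funext t
    fin_cases t
    exacts [e0, e1, e2, e3]
  | 5, h =>
    have h0 := h 0 (by decide)
    rw [l4 _ v 144 (-7) (-103) (-92) (by decide +kernel)] at h0
    have h1 := h 1 (by decide)
    rw [l4 _ v (-134) (-51) (-52) (-130) (by decide +kernel)] at h1
    have h2 := h 2 (by decide)
    rw [l4 _ v 95 (-124) (-121) (-32) (by decide +kernel)] at h2
    have h3 := h 3 (by decide)
    rw [l4 _ v 60 (-40) (-104) 155 (by decide +kernel)] at h3
    have h4 := h 4 (by decide)
    rw [l4 _ v 27 95 169 (-40) (by decide +kernel)] at h4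
    push_cast at h0 h1 h2 h3 h4
    have e0 : v 0 = 0 := le_antisymm (by linarith) (by linarith)
    have e1 : v 1 = 0 := le_antisymm (by linarith) (by linarith)
    have e2 : v 2 = 0 := le_antisymm (by linarith) (by linarith)
    have e3 : v 3 = 0 := le_antisymm (by linarith) (by linarith)
    funext t
    fin_cases t
    exacts [e0, e1, e2, e3]

theorem base4 : CM (Fin 4 → ℝ) (Fin 6) (· ≠ ·) :=
  base_of N4 Z4 C4 Y4 (· ≠ ·) (by decide +kernel) hN4 (fun i j x hij h => h j hij)
    (by decide +kernel) (by decide +kernel) (by decide +kernel) (by decide +kernel)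
    (by decide +kernel) (by decide +kernel) (by decide +kernel)

theorem exist {d n : ℕ} (hd : 3 ≤ d) (h6 : 6 ≤ n) (hn : d + 2 ≤ n) :
    GM (EuclideanSpace ℝ (Fin d)) (Fin n) (Fin (d + 1)) := by
  rcases hd.eq_or_lt with rfl | h
  · have g := toG (κ := Fin (3 + 1)) (adj := adj3) (by decide) (by decide)
      (fun i => Fintype.equivOfCardEq (by revert i; decide +kernel)) base3
    exact (g.move (LinearEquiv.ofFinrankEq _ _ (by simp)) (Equiv.refl _)).more h6
  · exact high base4 h hn

end Pool.Agent.H.MP_683378_co
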