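import Mathlib

set_option autoImplicit false
open Filter Topology

namespace Pool.Agent.H.MP_683378_co

section
variable {E : Type} [NormedAddCommGroup E] [NormedSpace ℝ E]

theorem nopen [FiniteDimensional ℝ E] {κ : Type} (p : κ → Prop) (L M : κ → E →ₗ[ℝ] ℝ)
    (h : ∀ v, (∀ k, p k → L k v ≤ 0) → v = 0) :
    ∀ᶠ δ in 𝓝 (0:ℝ), ∀ v, (∀ k, p k → L k v + δ * M k v ≤ 0) → v = 0 := by
  have hc : IsCompact (Metric.sphere (0:E) 1) := isCompact_sphere 0 1
  have := hc.eventually_forall_of_forall_eventually (x₀ := (0:ℝ))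
    (P := fun δ v => ∃ k, p k ∧ 0 < L k v + δ * M k v) (by
      intro y hy
      have hy0 : y ≠ 0 := by rintro rfl; simp at hy
      have : ∃ k, p k ∧ 0 < L k y := by
        by_contra hn
        push Not at hn
        exact hy0 (h y hn)
      obtain ⟨k, hk, h0⟩ := this
      have c1 := (L k).continuous_of_finiteDimensional
      have c2 := (M k).continuous_of_finiteDimensional
      have c3 : Continuous fun z : ℝ × E => L k z.2 + z.1 * M k z.2 := by fun_prop
      have := continuousAt_const.eventually_lt (c3.continuousAt (x := (0, y))) (by simpa using h0)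
      exact this.mono fun z hz => ⟨k, hk, hz⟩)
  refine this.mono fun δ hδ v hv => ?_
  by_contra h0
  have hn : 0 < ‖v‖ := norm_pos_iff.2 h0
  obtain ⟨k, hk, h1⟩ := hδ (‖v‖⁻¹ • v) (by
    simp [norm_smul, inv_mul_cancel₀ hn.ne'])
  have h2 := hv k hk
  simp only [map_smul, smul_eq_mul] at h1
  have : ‖v‖⁻¹ * L k v + δ * (‖v‖⁻¹ * M k v) = ‖v‖⁻¹ * (L k v + δ * M k v) := by ring
  rw [this] at h1
  have := mul_nonpos_of_nonneg_of_nonpos (inv_nonneg.2 hn.le) h2
  linarith

theorem dirs [FiniteDimensional ℝ E] {κ : Type} [Fintype κ] (L : κ → E →ₗ[ℝ] ℝ)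
    (h : Fintype.card κ ≤ Module.finrank ℝ E) (h1 : 0 < Module.finrank ℝ E) :
    ∃ v, v ≠ 0 ∧ ∀ k, L k v ≤ 0 := by
  classical
  rcases isEmpty_or_nonempty κ with hk | ⟨⟨k0⟩⟩
  · have := Module.finrank_pos_iff_exists_ne_zero.1 h1
    obtain ⟨v, hv⟩ := this
    exact ⟨v, hv, fun k => hk.elim k⟩
  · let T : E →ₗ[ℝ] ({k // k ≠ k0} → ℝ) := LinearMap.pi fun k => L k.1
    have hc : 0 < Fintype.card κ := Fintype.card_pos_iff.2 ⟨k0⟩
    have hT : LinearMap.ker T ≠ ⊥ := by
      apply LinearMap.ker_ne_bot_of_finrank_lt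
      simp
      omega
    obtain ⟨v, hv, h0⟩ := Submodule.exists_mem_ne_zero_of_ne_bot hT
    have hz : ∀ k, k ≠ k0 → L k v = 0 := fun k hk => congrFun (LinearMap.mem_ker.1 hv) ⟨k, hk⟩
    rcases le_total (L k0 v) 0 with e | e
    · refine ⟨v, h0, fun k => ?_⟩
      by_cases hk : k = k0
      · rwa [hk]
      · exact (hz k hk).le
    · refine ⟨-v, neg_ne_zero.2 h0, fun k => ?_⟩
      rw [map_neg]
      by_cases hk : k = k0
      · rw [hk]; linarith
      · rw [hz k hk]; simp

/-- pair model -/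
def CM (E : Type) [NormedAddCommGroup E] [NormedSpace ℝ E] (ι : Type) (adj : ι → ι → Prop) : Prop :=
  ∃ (L : ι → ι → E →ₗ[ℝ] ℝ) (c : ι → ι → ℝ),
    (∀ i j, i ≠ j → ∀ x, L j i x + c j i = -(L i j x + c i j)) ∧
    (∀ i v, (∀ j, adj i j → L i j v ≤ 0) → v = 0) ∧
    (∀ i j x, i ≠ j → (∀ k, adj i k → L i k x + c i k < 0) → L i j x + c i j < 0) ∧
    (∀ i j, adj i j → ∃ z, L i j z + c i j = 0 ∧ (∀ k, adj i k → k ≠ j → L i k z + c i k < 0) ∧
      ∀ k, adj j k → k ≠ i → L j k z + c j k < 0) ∧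
    ∃ a k0 k1, adj a k0 ∧ adj a k1 ∧ k0 ≠ k1 ∧ ∀ k, adj a k → k ≠ k0 → k ≠ k1 → ∃ y,
      L a k y + c a k = 0 ∧ L a k0 y + c a k0 = 0 ∧ L a k1 y + c a k1 < 0 ∧
      (∀ m, adj a m → L a m y + c a m ≤ 0) ∧ ∀ m, adj k m → L k m y + c k m ≤ 0

theorem frame [FiniteDimensional ℝ E] (h2 : 2 ≤ Module.finrank ℝ E) (L : E →ₗ[ℝ] ℝ) {u : E}
    (hu : L u ≠ 0) : ∃ (φ : E →ₗ[ℝ] ℝ) (u w : E), L u = 1 ∧ φ u = 0 ∧ L w = 0 ∧ φ w = 1 := by
  obtain ⟨w, hw, h⟩ := dirs (κ := Bool) (fun b => cond b L (-L)) (by simpa using h2) (by omega)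
  have h1 : L w = 0 := by
    have a := h true
    have b := h false
    simp at a b
    linarith
  obtain ⟨φ, hφ⟩ := Module.Projective.exists_dual_eq_one ℝ (x := w) hw
  refine ⟨φ, (L u)⁻¹ • u - φ ((L u)⁻¹ • u) • w, w, ?_, ?_, h1, hφ⟩
  · simp [h1, hu]
  · simp [hφ]

theorem ev_lt {f : ℝ → ℝ} (hf : Continuous f) (h : f 0 < 0) : ∀ᶠ δ in 𝓝 (0:ℝ), f δ < 0 :=
  hf.continuousAt.eventually_lt continuousAt_const h

theorem lift [FiniteDimensional ℝ E] (h2 : 2 ≤ Module.finrank ℝ E) {ι : Type} [Finite ι]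
    (h : CM E ι (· ≠ ·)) : CM (E × ℝ) (Option ι) (· ≠ ·) := by
  classical
  obtain ⟨L, c, hanti, hN, -, hZ, a, k0, k1, hk0, hk1, hk, -⟩ := h
  choose! z hz0 hz1 hz2 using hZ
  have hlin : ∀ i j, i ≠ j → ∀ v, L j i v = - L i j v := by
    intro i j hij v
    have h1 := hanti i j hij v
    have h2 := hanti i j hij 0
    simp only [map_zero] at h2
    linarith
  have hex : ∀ j, a ≠ j → ∃ (φ : E →ₗ[ℝ] ℝ) (u w : E),
      L a j u = 1 ∧ φ u = 0 ∧ L a j w = 0 ∧ φ w = 1 := by
    intro j hj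
    have : ∃ k, a ≠ k ∧ j ≠ k := by
      by_cases e : j = k0
      · exact ⟨k1, hk1, by rw [e]; exact hk⟩
      · exact ⟨k0, hk0, e⟩
    obtain ⟨k, h1, h3⟩ := this
    refine frame h2 (L a j) (u := z a j - z a k) ?_
    rw [map_sub]
    linarith [hz0 a j hj, hz1 a k h1 j hj h3]
  choose! φ u w e1 e2 e3 e4 using hex
  have hp : ∃ p, ∀ k, a ≠ k → L a k p + c a k < 0 := by
    refine ⟨(1/2:ℝ) • z a k0 + (1/2:ℝ) • z a k1, fun k h1 => ?_⟩
    simp only [map_add, map_smul, smul_eq_mul]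
    by_cases e : k = k0
    · subst e; linarith [hz0 a k hk0, hz1 a k1 hk1 k h1 hk]
    · by_cases e' : k = k1
      · subst e'; linarith [hz0 a k hk1, hz1 a k0 hk0 k h1 e]
      · linarith [hz1 a k0 hk0 k h1 e, hz1 a k1 hk1 k h1 e']
  obtain ⟨p, hp⟩ := hp
  have E1 := nopen (a ≠ ·) (L a) φ (hN a)
  have E2 := nopen (a ≠ ·) (L a) (fun k => -φ k) (hN a)
  have E3 : ∀ᶠ δ in 𝓝 (0:ℝ), ∀ j k, ∀ s : Bool, a ≠ j → a ≠ k → k ≠ j →
      let σ : ℝ := cond s 1 (-1)
      let x := z a j + δ ^ 2 • u j - (2 * σ * δ) • w j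
      L a k x + c a k + σ * δ * (φ k x - φ k (z a k)) + δ ^ 2 < 0 ∧ L j k x + c j k < 0 := by
    simp only [eventually_all]
    intro j k s hj hk' hkj
    refine Eventually.and (ev_lt ?_ ?_) (ev_lt ?_ ?_)
    · simp only [map_add, map_sub, map_smul, smul_eq_mul]; fun_prop
    · simpa using hz1 a j hj k hk' hkj
    · simp only [map_add, map_sub, map_smul, smul_eq_mul]; fun_prop
    · simpa using hz2 a j hj k hkj.symm hk'.symm
  have E4 : ∀ᶠ δ in 𝓝 (0:ℝ), ∀ k, ∀ s : Bool, a ≠ k →
      L a k p + c a k + cond s 1 (-1) * δ * (φ k p - φ k (z a k)) < 0 := by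
    simp only [eventually_all]
    intro k s hk'
    exact ev_lt (by fun_prop) (by simpa using hp k hk')
  have E5 : ∀ᶠ δ in 𝓝 (0:ℝ), ∀ j k, ∀ s : Bool, a ≠ j → a ≠ k → j ≠ k →
      (L j a (z j k) + c j a + cond s 1 (-1) * δ * (φ j (z j k) - φ j (z a j)) < 0 ∧
       L k a (z j k) + c k a + cond s 1 (-1) * δ * (φ k (z j k) - φ k (z a k)) < 0) ∧
       L a k (z a j) + c a k + δ * (φ k (z a j) - φ k (z a k)) < 0 := by
    simp only [eventually_all]
    intro j k s hj hk' hjk
    refine Eventually.and (Eventually.and (ev_lt (by fun_prop) ?_) (ev_lt (by fun_prop) ?_))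
      (ev_lt (by fun_prop) ?_)
    · simpa using hz1 j k hjk a hj.symm hk'
    · simpa using hz2 j k hjk a hk'.symm hj
    · simpa using hz1 a j hj k hk' hjk.symm
  obtain ⟨δ, ⟨⟨⟨⟨F1, F2⟩, F3⟩, F4⟩, F5⟩, hδ⟩ :=
    (((((E1.and E2).and E3).and E4).and E5).filter_mono
      (nhdsWithin_le_nhds (s := Set.Ioi 0)) |>.and self_mem_nhdsWithin).exists
  have hδ : 0 < δ := hδ
  have hδ2 : 0 < δ ^ 2 := by positivity
  let π := LinearMap.fst ℝ E ℝ
  let τ := LinearMap.snd ℝ E ℝ
  let P : ι → (E × ℝ) →ₗ[ℝ] ℝ := fun j => (L a j + δ • φ j) ∘ₗ π + τ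
  let Q : ι → (E × ℝ) →ₗ[ℝ] ℝ := fun j => if j = a then τ else (L a j - δ • φ j) ∘ₗ π - τ
  let q : ι → ℝ := fun j => if j = a then 0 else c a j + δ * φ j (z a j)
  let L' : Option ι → Option ι → (E × ℝ) →ₗ[ℝ] ℝ := fun i j => match i, j with
    | none, none => 0
    | none, some j => Q j
    | some i, none => -Q i
    | some i, some j => if i = a then P j else if j = a then -P i else L i j ∘ₗ π
  let c' : Option ι → Option ι → ℝ := fun i j => match i, j with
    | none, none => 0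
    | none, some j => q j
    | some i, none => -q i
    | some i, some j => if i = a then c a j - δ * φ j (z a j)
        else if j = a then -(c a i - δ * φ i (z a i)) else c i j
  have vTa : ∀ x : E × ℝ, L' none (some a) x = x.2 ∧ c' none (some a) = 0 := by
    intro x; simp [L', c', Q, q, τ]
  have vaT : ∀ x : E × ℝ, L' (some a) none x = -x.2 ∧ c' (some a) none = 0 := by
    intro x; simp [L', c', Q, q, τ]
  have vTj : ∀ j, a ≠ j → ∀ x : E × ℝ, L' none (some j) x = L a j x.1 - δ * φ j x.1 - x.2 ∧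
      c' none (some j) = c a j + δ * φ j (z a j) := by
    intro j hj x; simp [L', c', Q, q, τ, π, hj.symm]
  have vjT : ∀ j, a ≠ j → ∀ x : E × ℝ, L' (some j) none x = -(L a j x.1 - δ * φ j x.1 - x.2) ∧
      c' (some j) none = -(c a j + δ * φ j (z a j)) := by
    intro j hj x; simp [L', c', Q, q, τ, π, hj.symm]
  have vaj : ∀ j, ∀ x : E × ℝ, L' (some a) (some j) x = L a j x.1 + δ * φ j x.1 + x.2 ∧
      c' (some a) (some j) = c a j - δ * φ j (z a j) := by
    intro j x; simp [L', c', P, τ, π]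
  have vja : ∀ j, a ≠ j → ∀ x : E × ℝ, L' (some j) (some a) x = -(L a j x.1 + δ * φ j x.1 + x.2) ∧
      c' (some j) (some a) = -(c a j - δ * φ j (z a j)) := by
    intro j hj x; simp [L', c', P, τ, π, hj.symm]
  have vjk : ∀ j k, a ≠ j → a ≠ k → ∀ x : E × ℝ, L' (some j) (some k) x = L j k x.1 ∧
      c' (some j) (some k) = c j k := by
    intro j k hj hk x; simp [L', c', π, hj.symm, hk.symm]
  clear_value L' c'
  have cs : ∀ i : Option ι, i = none ∨ i = some a ∨ ∃ j, a ≠ j ∧ i = some j := by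
    intro i
    rcases i with _ | i
    · exact Or.inl rfl
    · by_cases e : a = i
      · exact Or.inr (Or.inl (by rw [e]))
      · exact Or.inr (Or.inr ⟨i, e, rfl⟩)
  have anti : ∀ i j, i ≠ j → ∀ x, L' j i x + c' j i = -(L' i j x + c' i j) := by
    intro i j hij x
    rcases cs i with rfl | rfl | ⟨i, hi, rfl⟩ <;> rcases cs j with rfl | rfl | ⟨j, hj, rfl⟩
    · exact absurd rfl hij
    · rw [(vTa x).1, (vTa x).2, (vaT x).1, (vaT x).2]; ring
    · rw [(vTj j hj x).1, (vTj j hj x).2, (vjT j hj x).1, (vjT j hj x).2]; ring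
    · rw [(vTa x).1, (vTa x).2, (vaT x).1, (vaT x).2]; ring
    · exact absurd rfl hij
    · rw [(vaj j x).1, (vaj j x).2, (vja j hj x).1, (vja j hj x).2]; ring
    · rw [(vTj i hi x).1, (vTj i hi x).2, (vjT i hi x).1, (vjT i hi x).2]; ring
    · rw [(vaj i x).1, (vaj i x).2, (vja i hi x).1, (vja i hi x).2]; ring
    · rw [(vjk i j hi hj x).1, (vjk i j hi hj x).2, (vjk j i hj hi x).1, (vjk j i hj hi x).2]
      exact hanti i j (fun e => hij (by rw [e])) x.1
  let Z : Option ι → Option ι → Prop := fun i j => ∃ z, L' i j z + c' i j = 0 ∧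
    (∀ k, i ≠ k → k ≠ j → L' i k z + c' i k < 0) ∧ ∀ k, j ≠ k → k ≠ i → L' j k z + c' j k < 0
  have Zs : ∀ i j, i ≠ j → Z i j → Z j i := by
    rintro i j hij ⟨x, h1, h2, h3⟩
    exact ⟨x, by rw [anti i j hij, h1, neg_zero], h3, h2⟩
  have ZaT : Z (some a) none := by
    refine ⟨(p, 0), by rw [(vaT _).1, (vaT 0).2]; simp, fun k h1 h2 => ?_, fun k h1 h2 => ?_⟩
    · rcases cs k with rfl | rfl | ⟨k, hk', rfl⟩
      · exact absurd rfl h2
      · exact absurd rfl h1
      · rw [(vaj k _).1, (vaj k 0).2]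
        have := F4 k true hk'
        simp only [cond_true] at this ⊢
        linarith
    · rcases cs k with rfl | rfl | ⟨k, hk', rfl⟩
      · exact absurd rfl h1
      · exact absurd rfl h2
      · rw [(vTj k hk' _).1, (vTj k hk' 0).2]
        have := F4 k false hk'
        simp only [cond_false] at this ⊢
        linarith
  have Zaj : ∀ j, a ≠ j → Z (some a) (some j) := by
    intro j hj
    have g1 : L a j (z a j + δ ^ 2 • u j - (2 * 1 * δ) • w j) = δ ^ 2 - c a j := by
      simp only [map_add, map_sub, map_smul, smul_eq_mul, e1 j hj, e3 j hj]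
      linarith [hz0 a j hj]
    have g2 : φ j (z a j + δ ^ 2 • u j - (2 * 1 * δ) • w j) = φ j (z a j) - 2 * δ := by
      simp only [map_add, map_sub, map_smul, smul_eq_mul, e2 j hj, e4 j hj]; ring
    refine ⟨(z a j + δ ^ 2 • u j - (2 * 1 * δ) • w j, δ ^ 2), ?_, fun k h1 h2 => ?_,
      fun k h1 h2 => ?_⟩
    · rw [(vaj j _).1, (vaj j 0).2, g1, g2]; ring
    · rcases cs k with rfl | rfl | ⟨k, hk', rfl⟩
      · rw [(vaT _).1, (vaT 0).2]; linarith
      · exact absurd rfl h1
      · rw [(vaj k _).1, (vaj k 0).2]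
        have := (F3 j k true hj hk' (fun e => h2 (by rw [e]))).1
        simp only [cond_true] at this ⊢
        linarith
    · rcases cs k with rfl | rfl | ⟨k, hk', rfl⟩
      · rw [(vjT j hj _).1, (vjT j hj 0).2, g1, g2]; nlinarith
      · exact absurd rfl h2
      · rw [(vjk j k hj hk' _).1, (vjk j k hj hk' 0).2]
        exact (F3 j k true hj hk' (fun e => h1 (by rw [e]))).2
  have ZTj : ∀ j, a ≠ j → Z none (some j) := by
    intro j hj
    have g1 : L a j (z a j + δ ^ 2 • u j - (2 * (-1) * δ) • w j) = δ ^ 2 - c a j := by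
      simp only [map_add, map_sub, map_smul, smul_eq_mul, e1 j hj, e3 j hj]
      linarith [hz0 a j hj]
    have g2 : φ j (z a j + δ ^ 2 • u j - (2 * (-1) * δ) • w j) = φ j (z a j) + 2 * δ := by
      simp only [map_add, map_sub, map_smul, smul_eq_mul, e2 j hj, e4 j hj]; ring
    refine ⟨(z a j + δ ^ 2 • u j - (2 * (-1) * δ) • w j, -δ ^ 2), ?_, fun k h1 h2 => ?_,
      fun k h1 h2 => ?_⟩
    · rw [(vTj j hj _).1, (vTj j hj 0).2, g1, g2]; ring
    · rcases cs k with rfl | rfl | ⟨k, hk', rfl⟩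
      · exact absurd rfl h1
      · rw [(vTa _).1, (vTa 0).2]; linarith
      · rw [(vTj k hk' _).1, (vTj k hk' 0).2]
        have := (F3 j k false hj hk' (fun e => h2 (by rw [e]))).1
        simp only [cond_false] at this ⊢
        linarith
    · rcases cs k with rfl | rfl | ⟨k, hk', rfl⟩
      · exact absurd rfl h2
      · rw [(vja j hj _).1, (vja j hj 0).2, g1, g2]; nlinarith
      · rw [(vjk j k hj hk' _).1, (vjk j k hj hk' 0).2]
        exact (F3 j k false hj hk' (fun e => h1 (by rw [e]))).2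
  have Zjk : ∀ j k, a ≠ j → a ≠ k → j ≠ k → Z (some j) (some k) := by
    intro j k hj hk' hjk
    have a1 := hanti a j hj (z j k)
    have a2 := hanti a k hk' (z j k)
    have b1 := (F5 j k true hj hk' hjk).1
    have b2 := (F5 j k false hj hk' hjk).1
    simp only [cond_true, cond_false] at b1 b2
    refine ⟨(z j k, 0), ?_, fun m h1 h2 => ?_, fun m h1 h2 => ?_⟩
    · rw [(vjk j k hj hk' _).1, (vjk j k hj hk' 0).2]; exact hz0 j k hjk
    · rcases cs m with rfl | rfl | ⟨m, hm, rfl⟩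
      · rw [(vjT j hj _).1, (vjT j hj 0).2]; linarith [b1.1]
      · rw [(vja j hj _).1, (vja j hj 0).2]; linarith [b2.1]
      · rw [(vjk j m hj hm _).1, (vjk j m hj hm 0).2]
        exact hz1 j k hjk m (fun e => h1 (by rw [e])) (fun e => h2 (by rw [e]))
    · rcases cs m with rfl | rfl | ⟨m, hm, rfl⟩
      · rw [(vjT k hk' _).1, (vjT k hk' 0).2]; linarith [b1.2]
      · rw [(vja k hk' _).1, (vja k hk' 0).2]; linarith [b2.2]
      · rw [(vjk k m hk' hm _).1, (vjk k m hk' hm 0).2]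
        exact hz2 j k hjk m (fun e => h1 (by rw [e])) (fun e => h2 (by rw [e]))
  have sn : ∀ j : ι, a ≠ j → some a ≠ some j := fun j h e => h (Option.some.inj e)
  refine ⟨L', c', anti, ?_, fun i j x hij h => h j hij, ?_, some a, none, some k0, by simp,
    sn k0 hk0, by simp, ?_⟩
  · rintro i ⟨v, s⟩ hv
    rcases cs i with rfl | rfl | ⟨j, hj, rfl⟩
    · have h1 := hv (some a) (by simp)
      rw [(vTa _).1] at h1
      have h3 : ∀ k, a ≠ k → L a k v - δ * φ k v - s ≤ 0 := fun k hk' => by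
        have := hv (some k) (by simp)
        rwa [(vTj k hk' _).1] at this
      have : v = 0 := F2 v fun k hk' => by
        have := h3 k hk'
        simp only [LinearMap.neg_apply] at this h1 ⊢
        linarith
      subst this
      have := h3 k0 hk0
      simp only [map_zero] at this h1
      have : s = 0 := by linarith
      rw [this]; rfl
    · have h1 := hv none (by simp)
      rw [(vaT _).1] at h1
      have h3 : ∀ k, a ≠ k → L a k v + δ * φ k v + s ≤ 0 := fun k hk' => by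
        have := hv (some k) (sn k hk')
        rwa [(vaj k _).1] at this
      have : v = 0 := F1 v fun k hk' => by
        have := h3 k hk'
        simp only at h1
        linarith
      subst this
      have := h3 k0 hk0
      simp only [map_zero] at this h1
      have : s = 0 := by linarith
      rw [this]; rfl
    · have h1 := hv none (by simp)
      have h3 := hv (some a) (sn j hj).symm
      rw [(vjT j hj _).1] at h1
      rw [(vja j hj _).1] at h3
      simp only at h1 h3
      have : v = 0 := hN j v fun k hk' => by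
        by_cases e : a = k
        · subst e
          rw [hlin a j hj]; linarith
        · have := hv (some k) (fun e => hk' (Option.some.inj e))
          rwa [(vjk j k hj e _).1] at this
      subst this
      simp only [map_zero] at h1 h3
      have : s = 0 := by linarith
      rw [this]; rfl
  · intro i j hij
    show Z i j
    rcases cs i with rfl | rfl | ⟨i, hi, rfl⟩ <;> rcases cs j with rfl | rfl | ⟨j, hj, rfl⟩
    · exact absurd rfl hij
    · exact Zs _ _ (Ne.symm hij) ZaT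
    · exact ZTj j hj
    · exact ZaT
    · exact absurd rfl hij
    · exact Zaj j hj
    · exact Zs _ _ (Ne.symm hij) (ZTj i hi)
    · exact Zs _ _ (Ne.symm hij) (Zaj i hi)
    · exact Zjk i j hi hj (fun e => hij (by rw [e]))
  · intro k h1 h2 h3
    rcases cs k with rfl | rfl | ⟨j, hj, rfl⟩
    · exact absurd rfl h2
    · exact absurd rfl h1
    have h0 := hz0 a j hj
    have lt : ∀ m, a ≠ m → j ≠ m →
        L' (some a) (some m) (z a j, 0) + c' (some a) (some m) < 0 := by
      intro m hm hjm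
      rw [(vaj m _).1, (vaj m 0).2]
      have := (F5 j m true hj hm hjm).2
      simp only
      linarith
    have eq : L' (some a) (some j) (z a j, 0) + c' (some a) (some j) = 0 := by
      rw [(vaj j _).1, (vaj j 0).2]; simp only; linarith
    refine ⟨(z a j, 0), eq, by rw [(vaT _).1, (vaT 0).2]; simp,
      lt k0 hk0 (fun e => h3 (by rw [e])), fun m hm => ?_, fun m hm => ?_⟩
    · rcases cs m with rfl | rfl | ⟨m, hm', rfl⟩
      · rw [(vaT _).1, (vaT 0).2]; simp
      · exact absurd rfl hm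
      · by_cases e : j = m
        · subst e; exact eq.le
        · exact (lt m hm' e).le
    · rcases cs m with rfl | rfl | ⟨m, hm', rfl⟩
      · rw [(vjT j hj _).1, (vjT j hj 0).2]; simp only; linarith
      · rw [(vja j hj _).1, (vja j hj 0).2]; simp only; linarith
      · rw [(vjk j m hj hm' _).1, (vjk j m hj hm' 0).2]
        exact (hz2 a j hj m (fun e => hm (by rw [e])) hm'.symm).le

end

end Pool.Agent.H.MP_683378_co
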