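import Pool.Agent.H.MP_683378_co.Model

set_option autoImplicit false
open Set MeasureTheory Filter Topology

namespace Pool.Agent.H.MP_683378_co

section
variable {E : Type} [NormedAddCommGroup E] [NormedSpace ℝ E]

theorem mkBasis [FiniteDimensional ℝ E] {κ : Type} [Fintype κ]
    (hc : Fintype.card κ = Module.finrank ℝ E + 1) (L : κ → E →ₗ[ℝ] ℝ) (c : κ → ℝ)
    (hN : ∀ v, (∀ k, L k v ≤ 0) → v = 0) (p : E) (hp : ∀ k, L k p + c k < 0) :
    ∃ (b : AffineBasis κ ℝ E) (α : κ → ℝ), (∀ k, 0 < α k) ∧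
      ∀ k x, b.coord k x = -α k * (L k x + c k) := by
  classical
  let T : E →ₗ[ℝ] (κ → ℝ) := LinearMap.pi L
  have hT : Function.Injective T := by
    rw [injective_iff_map_eq_zero]
    exact fun v hv => hN v fun k => (congrFun hv k).le
  have hr : Module.finrank ℝ (LinearMap.range T) = Module.finrank ℝ E :=
    LinearMap.finrank_range_of_inj hT
  have hlt : LinearMap.range T < ⊤ := by
    rw [lt_top_iff_ne_top]
    intro h
    rw [h] at hr
    simp at hr
    omega
  obtain ⟨ψ, hψ, hle⟩ := Submodule.exists_le_ker_of_lt_top _ hlt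
  have hk : Module.finrank ℝ (LinearMap.ker ψ) + 1 = Module.finrank ℝ (κ → ℝ) :=
    Module.Dual.finrank_ker_add_one_of_ne_zero hψ
  have heq : LinearMap.range T = LinearMap.ker ψ :=
    Submodule.eq_of_le_of_finrank_eq hle (by simp at hk; omega)
  have hsur : ∀ y, ψ y = 0 → ∃ v, T v = y := fun y hy => by
    have : y ∈ LinearMap.range T := by rw [heq]; exact hy
    exact this
  let a : κ → ℝ := fun k => ψ (Pi.single k 1)
  have hsum : ∀ y, ψ y = ∑ k, y k * a k := by
    intro y
    conv_lhs => rw [← Finset.univ_sum_single y]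
    rw [map_sum]
    refine Finset.sum_congr rfl fun k _ => ?_
    rw [← smul_eq_mul, ← map_smul, ← Pi.single_smul', smul_eq_mul, mul_one]
  have H : ∀ y, ψ y = 0 → (∀ k, y k ≤ 0) → y = 0 := by
    intro y h1 h2
    obtain ⟨v, rfl⟩ := hsur y h1
    rw [hN v h2, map_zero]
  have ne : ∀ k, a k ≠ 0 := by
    intro k h
    have := H (-Pi.single k 1) (by rw [map_neg]; simpa using h) (fun m => by
      by_cases e : m = k <;> simp [e])
    have := congrFun this k
    simp at this
  have same : ∀ k l, 0 < a k * a l := by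
    intro k l
    by_contra hn
    push Not at hn
    have hlt : a k * a l < 0 := lt_of_le_of_ne hn (mul_ne_zero (ne k) (ne l))
    have hkl : k ≠ l := by rintro rfl; nlinarith [mul_self_nonneg (a k)]
    have := H (-((a l * a l) • Pi.single k 1 - (a k * a l) • Pi.single l 1))
      (by simp only [map_neg, map_sub, map_smul, smul_eq_mul]; show -(_ * a k - _ * a l) = 0; ring)
      (fun m => by
        by_cases e : m = k
        · subst e; simp [hkl]; exact mul_self_nonneg _
        · by_cases e' : m = l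
          · subst e'; simp [e]; linarith
          · simp [e, e'])
    have := congrFun this k
    simp [hkl] at this
    exact ne l this
  set D := ∑ l, (L l p + c l) * a l with hD
  have hne : Nonempty κ := Fintype.card_pos_iff.1 (by omega)
  have aD : ∀ k, a k * D < 0 := by
    intro k
    rw [hD, Finset.mul_sum]
    refine Finset.sum_neg (fun l _ => ?_) Finset.univ_nonempty
    nlinarith [same k l, hp l]
  have D0 : D ≠ 0 := by
    obtain ⟨k⟩ := hne
    intro h
    have := aD k
    rw [h] at this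
    simp at this
  have hv : ∀ l, ∃ v, ∀ k, L k v + c k = if k = l then D / a l else 0 := by
    intro l
    obtain ⟨w, hw⟩ := hsur (fun k => (if k = l then D / a l else 0) - (L k p + c k)) (by
      rw [hsum]
      simp only [sub_mul, Finset.sum_sub_distrib, ← hD, ite_mul, zero_mul, Finset.sum_ite_eq',
        Finset.mem_univ, if_true]
      rw [div_mul_cancel₀ _ (ne l), sub_self])
    refine ⟨p + w, fun k => ?_⟩
    have : L k w = _ := congrFun hw k
    rw [map_add, this]; ring
  choose v hv using hv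
  have key : ∀ (s : Finset κ) (w : κ → ℝ) (k : κ), L k (∑ e ∈ s, w e • v e) + (∑ e ∈ s, w e) * c k
      = if k ∈ s then w k * (D / a k) else 0 := by
    intro s w k
    rw [map_sum, Finset.sum_mul, ← Finset.sum_add_distrib, ← Finset.sum_ite_eq s k
      (fun e => w e * (D / a e))]
    refine Finset.sum_congr rfl fun e _ => ?_
    rw [map_smul, smul_eq_mul, ← mul_add, hv]
    split_ifs <;> simp
  have ind : AffineIndependent ℝ v := by
    rw [affineIndependent_iff]
    intro s w h1 h2 k hk
    have := key s w k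
    rw [h2, h1, if_pos hk] at this
    simp only [map_zero, zero_mul, add_zero] at this
    exact (mul_eq_zero.1 this.symm).resolve_right (div_ne_zero D0 (ne k))
  let b : AffineBasis κ ℝ E :=
    ⟨v, ind, ind.affineSpan_eq_top_iff_card_eq_finrank_add_one.2 hc⟩
  refine ⟨b, fun k => -(a k / D), fun k => ?_, fun k x => ?_⟩
  · have h1 := aD k
    have : a k / D = a k * D / D ^ 2 := by field_simp
    show 0 < -(a k / D)
    rw [this]
    have : 0 < D ^ 2 := by positivity
    linarith [div_neg_of_neg_of_pos h1 this]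
  · have h1 := key Finset.univ (fun e => b.coord e x) k
    have h2 : ∑ e, b.coord e x • v e = x := b.linear_combination_coord_eq_self x
    rw [h2, b.sum_coord_apply_eq_one, one_mul, if_pos (Finset.mem_univ _)] at h1
    rw [h1]
    have := ne k
    field_simp

theorem facet_eq {κ : Type} [Fintype κ] (b : AffineBasis κ ℝ E) (k : κ) :
    convexHull ℝ (b '' {k}ᶜ) = {x | (∀ i, 0 ≤ b.coord i x) ∧ b.coord k x = 0} := by
  classical
  apply Subset.antisymm
  · intro x hx
    refine ⟨?_, ?_⟩
    · have : x ∈ convexHull ℝ (range b) := convexHull_mono (image_subset_range _ _) hx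
      rwa [b.convexHull_eq_nonneg_coord] at this
    · have hc : Convex ℝ ((b.coord k) ⁻¹' {0}) := (convex_singleton 0).affine_preimage _
      refine convexHull_min ?_ hc hx
      rintro _ ⟨i, hi, rfl⟩
      exact b.coord_apply_ne (Ne.symm hi)
  · rintro x ⟨h1, h2⟩
    have e1 : ∑ i ∈ Finset.univ.erase k, b.coord i x = 1 := by
      rw [← b.sum_coord_apply_eq_one x, ← Finset.add_sum_erase _ _ (Finset.mem_univ k), h2,
        zero_add]
    have e2 : ∑ i ∈ Finset.univ.erase k, b.coord i x • b i = x := by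
      conv_rhs => rw [← b.linear_combination_coord_eq_self x]
      rw [← Finset.add_sum_erase _ _ (Finset.mem_univ k), h2, zero_smul, zero_add]
    rw [← e2]
    exact (convex_convexHull ℝ _).sum_mem (fun i _ => h1 i) e1 fun i hi =>
      subset_convexHull ℝ _ ⟨i, (Finset.mem_erase.1 hi).1, rfl⟩

theorem coord_add {κ : Type} (b : AffineBasis κ ℝ E) (k : κ) (x v : E) (t : ℝ) :
    b.coord k (x + t • v) = b.coord k x + t * (b.coord k).linear v := by
  have := (b.coord k).map_vadd x (t • v)
  rw [vadd_eq_add, vadd_eq_add, map_smul, smul_eq_mul, add_comm (t • v)] at this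
  rw [this, add_comm]

variable [FiniteDimensional ℝ E] [MeasurableSpace E] [BorelSpace E]

theorem himage {d : ℕ} (hd : Module.finrank ℝ E = d) {l : E →ₗ[ℝ] ℝ} (hl : l ≠ 0) (z : E)
    (s : Set (LinearMap.ker l)) :
    μH[(d : ℝ) - 1] ((fun w : LinearMap.ker l => z + w) '' s)
      = μH[Module.finrank ℝ (LinearMap.ker l)] s := by
  have hk : Module.finrank ℝ (LinearMap.ker l) + 1 = Module.finrank ℝ E :=
    Module.Dual.finrank_ker_add_one_of_ne_zero hl
  have e : (d : ℝ) - 1 = Module.finrank ℝ (LinearMap.ker l) := by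
    rw [← hd, ← hk]; push_cast; ring
  have hi : Isometry (fun w : LinearMap.ker l => z + w) :=
    (isometry_add_left z).comp isometry_subtype_coe
  rw [e, hi.hausdorffMeasure_image (Or.inl (by positivity))]

theorem hpos {d : ℕ} (hd : Module.finrank ℝ E = d) {l : E →ₗ[ℝ] ℝ} (hl : l ≠ 0) {z : E}
    {U : Set E} (hU : IsOpen U) (hz : z ∈ U) : 0 < μH[(d : ℝ) - 1] (U ∩ {x | l x = l z}) := by
  have h1 : (fun w : LinearMap.ker l => z + w) '' ((fun w : LinearMap.ker l => z + w) ⁻¹' U)
      ⊆ U ∩ {x | l x = l z} := by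
    rintro _ ⟨w, hw, rfl⟩
    exact ⟨hw, by simp [LinearMap.mem_ker.1 w.2]⟩
  refine lt_of_lt_of_le ?_ (measure_mono h1)
  rw [himage hd hl]
  exact IsOpen.measure_pos _ (hU.preimage (by fun_prop)) ⟨0, by simpa using hz⟩

theorem hnull {d : ℕ} (hd : Module.finrank ℝ E = d) {l : E →ₗ[ℝ] ℝ} (hl : l ≠ 0) (z : E)
    (g : E →ᵃ[ℝ] ℝ) (hg : g z ≠ 0) : μH[(d : ℝ) - 1] {x | l x = l z ∧ g x = 0} = 0 := by
  let s : AffineSubspace ℝ (LinearMap.ker l) :=
    ⟨{w | g.linear w = -g z}, by
      intro c a b e ha hb he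
      simp only [mem_ofPred_eq] at ha hb he ⊢
      simp [ha, hb, he]⟩
  have h1 : {x | l x = l z ∧ g x = 0} ⊆ (fun w : LinearMap.ker l => z + w) '' s := by
    rintro x ⟨h1, h2⟩
    refine ⟨⟨x - z, by simp [h1]⟩, ?_, by simp⟩
    show g.linear (x - z) = -g z
    have := g.linearMap_vsub x z
    rw [vsub_eq_sub, vsub_eq_sub, h2] at this
    rw [this]; ring
  refine measure_mono_null h1 ?_
  rw [himage hd hl]
  apply Measure.addHaar_affineSubspace
  intro h
  have : (0 : LinearMap.ker l) ∈ s := by rw [h]; trivial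
  have h2 : g.linear (0 : LinearMap.ker l) = -g z := this
  simp at h2
  exact hg h2

theorem ridge {d : ℕ} (hd : Module.finrank ℝ E = d) {κ : Type} (b : AffineBasis κ ℝ E) {k m : κ}
    (h : m ≠ k) : μH[(d : ℝ) - 1] {x | b.coord k x = 0 ∧ b.coord m x = 0} = 0 := by
  have e : ∀ x y, (b.coord k).linear x - (b.coord k).linear y = b.coord k x - b.coord k y := by
    intro x y
    rw [← map_sub]
    exact (b.coord k).linearMap_vsub x y
  have h0 : b.coord k (b m) = 0 := b.coord_apply_ne h.symm
  have hl : (b.coord k).linear ≠ 0 := by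
    intro h1
    have := e (b k) (b m)
    rw [h1, h0, b.coord_apply_eq] at this
    simp at this
  refine measure_mono_null ?_ (hnull hd hl (b m) (b.coord m) (by simp))
  rintro x ⟨h1, h2⟩
  exact ⟨by linarith [e x (b m)], h2⟩

theorem strict {d : ℕ} (hd : Module.finrank ℝ E = d) {κ : Type} [Fintype κ]
    (b b' : AffineBasis κ ℝ E) (k l : κ)
    (h : 0 < μH[(d : ℝ) - 1] (convexHull ℝ (b '' {k}ᶜ) ∩ convexHull ℝ (b' '' {l}ᶜ))) :
    ∃ z, b.coord k z = 0 ∧ b'.coord l z = 0 ∧ (∀ m, m ≠ k → 0 < b.coord m z) ∧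
      ∀ m, m ≠ l → 0 < b'.coord m z := by
  by_contra hn
  apply h.ne'
  have h1 : μH[(d : ℝ) - 1] ((⋃ m : {m // m ≠ k}, {x | b.coord k x = 0 ∧ b.coord m x = 0}) ∪
      ⋃ m : {m // m ≠ l}, {x | b'.coord l x = 0 ∧ b'.coord m x = 0}) = 0 :=
    measure_union_null (measure_iUnion_null fun m => ridge hd b m.2)
      (measure_iUnion_null fun m => ridge hd b' m.2)
  refine measure_mono_null ?_ h1
  rw [facet_eq, facet_eq]
  rintro x ⟨⟨a1, a2⟩, ⟨b1, b2⟩⟩
  by_contra hx
  simp only [mem_union, mem_iUnion, mem_ofPred_eq, not_or, not_exists] at hx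
  exact hn ⟨x, a2, b2, fun m hm => lt_of_le_of_ne (a1 m) fun e => hx.1 ⟨m, hm⟩ ⟨a2, e.symm⟩,
    fun m hm => lt_of_le_of_ne (b1 m) fun e => hx.2 ⟨m, hm⟩ ⟨b2, e.symm⟩⟩

omit [FiniteDimensional ℝ E] [MeasurableSpace E] [BorelSpace E] in
theorem near {κ : Type} [Finite κ] (b : AffineBasis κ ℝ E) {k : κ} {z : E} (h0 : b.coord k z = 0)
    (h1 : ∀ m, m ≠ k → 0 < b.coord m z) {w : E} (hw : 0 < (b.coord k).linear w) :
    ∀ᶠ t in 𝓝[>] (0:ℝ), z + t • w ∈ interior (convexHull ℝ (range b)) := by
  rw [b.interior_convexHull]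
  simp only [mem_ofPred_eq, eventually_all, coord_add]
  intro m
  by_cases e : m = k
  · subst e
    filter_upwards [self_mem_nhdsWithin] with t ht
    rw [h0, zero_add]
    exact mul_pos ht hw
  · refine Eventually.filter_mono nhdsWithin_le_nhds ?_
    exact continuousAt_const.eventually_lt (by fun_prop) (by simpa using h1 m e)

theorem block {d : ℕ} (hd : Module.finrank ℝ E = d) {κ : Type} [Fintype κ] [Nontrivial κ]
    (b b' : AffineBasis κ ℝ E) (k l : κ)
    (hdis : Disjoint (interior (convexHull ℝ (range b))) (interior (convexHull ℝ (range b'))))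
    (h : 0 < μH[(d : ℝ) - 1] (convexHull ℝ (b '' {k}ᶜ) ∩ convexHull ℝ (b' '' {l}ᶜ)))
    {v : E} (hv : (b.coord k).linear v < 0) :
    ∃ t : ℝ, 0 < t ∧ ∃ x ∈ interior (convexHull ℝ (range b)),
      x + t • v ∈ interior (convexHull ℝ (range b')) := by
  obtain ⟨z, a0, b0, a1, b1⟩ := strict hd b b' k l h
  have no : ∀ w, 0 < (b.coord k).linear w → (b'.coord l).linear w ≤ 0 := by
    intro w hw
    by_contra hn
    push Not at hn
    obtain ⟨t, h1, h2⟩ := ((near b a0 a1 hw).and (near b' b0 b1 hn)).exists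
    exact Set.disjoint_left.1 hdis h1 h2
  obtain ⟨m, hm⟩ := exists_ne l
  have hu : (b'.coord l).linear (b' l - b' m) = 1 := by
    have := (b'.coord l).linearMap_vsub (b' l) (b' m)
    rw [vsub_eq_sub, vsub_eq_sub, b'.coord_apply_eq, b'.coord_apply_ne hm.symm] at this
    simpa using this
  have hv' : 0 < (b'.coord l).linear v := by
    have ev : ∀ᶠ s in 𝓝 (0:ℝ),
        (b.coord k).linear v - s * (b.coord k).linear (b' l - b' m) < 0 :=
      ev_lt (by fun_prop) (by simpa using hv)
    obtain ⟨s, h1, h2⟩ := (ev.filter_mono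
      (nhdsWithin_le_nhds (s := Set.Ioi 0)) |>.and self_mem_nhdsWithin).exists
    have h2 : 0 < s := h2
    have := no (s • (b' l - b' m) - v) (by rw [map_sub, map_smul, smul_eq_mul]; linarith)
    rw [map_sub, map_smul, smul_eq_mul, hu] at this
    linarith
  obtain ⟨t, ⟨h1, h2⟩, h3⟩ := (((near b a0 a1 (w := -v) (by rw [map_neg]; linarith)).and
    (near b' b0 b1 hv')).and self_mem_nhdsWithin).exists
  have h3 : 0 < t := h3
  refine ⟨2 * t, by linarith, _, h1, ?_⟩
  have e : z + t • -v + (2 * t) • v = z + t • v := by module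
  rwa [e]

omit [FiniteDimensional ℝ E] [MeasurableSpace E] [BorelSpace E] in
theorem down {κ : Type} [Fintype κ] (b : AffineBasis κ ℝ E) {v : E} (hv : v ≠ 0) :
    ∃ k, (b.coord k).linear v < 0 := by
  by_contra hn
  push Not at hn
  have h1 := b.sum_coord_apply_eq_one (0 + (1:ℝ) • v)
  simp only [coord_add, Finset.sum_add_distrib, b.sum_coord_apply_eq_one, one_mul] at h1
  have h2 : ∑ k, (b.coord k).linear v = 0 := by linarith
  rw [Finset.sum_eq_zero_iff_of_nonneg fun k _ => hn k] at h2
  apply hv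
  have : (0:E) + (1:ℝ) • v = 0 := b.ext_elem fun k => by
    rw [coord_add, h2 k (Finset.mem_univ _)]; simp
  simpa using this

end

end Pool.Agent.H.MP_683378_co
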