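import Pool.Agent.H.MP_683378_co.Simp
import Pool.Agent.H.MP_683378_co.Base
import Pool.Agent.H.MP_0aa80c_co.Geo

set_option autoImplicit false
open Set MeasureTheory Filter Topology

namespace Pool.Agent.H.MP_683378_co

section
variable {E : Type} [NormedAddCommGroup E] [NormedSpace ℝ E]

/-- one of the sets can slide along a ray -/
def Slide {ι : Type} (U : ι → Set E) : Prop :=
  ∃ i, ∃ v : E, v ≠ 0 ∧ ∀ t : ℝ, 0 < t → ∀ x ∈ U i, ∀ j, j ≠ i → x + t • v ∉ U j

theorem slide_few [FiniteDimensional ℝ E] {n : ℕ} (U : Fin (n + 1) → Set E)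
    (hc : ∀ i, Convex ℝ (U i)) (ho : ∀ i, IsOpen (U i))
    (hd : ∀ i j, i ≠ j → Disjoint (U i) (U j)) (h : n ≤ Module.finrank ℝ E)
    (h1 : 0 < Module.finrank ℝ E) : Slide U := by
  have hs : ∀ j : Fin n, ∃ (f : StrongDual ℝ E) (u : ℝ), (∀ a ∈ U 0, f a < u) ∧
      ∀ b ∈ U j.succ, u < f b := fun j =>
    geometric_hahn_banach_open_open (hc _) (ho _) (hc _) (ho _) (hd _ _ (Fin.succ_ne_zero j).symm)
  choose f u h2 h3 using hs
  obtain ⟨v, hv, h4⟩ := dirs (fun j => (f j).toLinearMap) (by simpa using h) h1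
  refine ⟨0, v, hv, fun t ht x hx j hj hy => ?_⟩
  obtain ⟨j, rfl⟩ := Fin.exists_succ_eq.2 hj
  have a := h3 j _ hy
  have b : f j v ≤ 0 := h4 j
  rw [map_add, map_smul, smul_eq_mul] at a
  nlinarith [h2 j x hx]

theorem tot_min {ι : Type} (r : ι → ι → Prop) (ht : ∀ a b, r a b ∨ r b a)
    (htr : ∀ a b c, r a b → r b c → r a c) (s : Finset ι) (hs : s.Nonempty) :
    ∃ a ∈ s, ∀ b ∈ s, r a b := by
  classical
  induction hs using Finset.Nonempty.cons_induction with
  | singleton a => exact ⟨a, by simp, by simpa using ht a a⟩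
  | cons a s ha _ ih =>
    obtain ⟨m, hm, h⟩ := ih
    rcases ht a m with e | e
    · refine ⟨a, by simp, fun b hb => ?_⟩
      rcases Finset.mem_cons.1 hb with rfl | hb
      · simpa using ht b b
      · exact htr _ _ _ e (h b hb)
    · refine ⟨m, Finset.mem_cons.2 (Or.inr hm), fun b hb => ?_⟩
      rcases Finset.mem_cons.1 hb with rfl | hb
      · exact e
      · exact h b hb

theorem slide_low {ι : Type} [Fintype ι] [Nonempty ι] (U : ι → Set E)
    (hc : ∀ i, Convex ℝ (U i)) (ho : ∀ i, IsOpen (U i))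
    (hd : ∀ i j, i ≠ j → Disjoint (U i) (U j)) (e : E) (he : e ≠ 0) (η : E →ₗ[ℝ] ℝ)
    (h0 : η e = 0) (h1 : ∀ w, η w = 0 → ∃ t : ℝ, w = t • e) : Slide U := by
  classical
  let R : ι → ι → Prop := fun i j => i ≠ j ∧ ∃ t : ℝ, 0 < t ∧ ∃ x ∈ U i, x + t • e ∈ U j
  have A : ∀ i j, R i j → ∀ p ∈ U i, ∀ s : ℝ, p + s • e ∈ U j → 0 < s := by
    rintro i j ⟨hij, t, ht, x, hx, hy⟩ p hp s hq
    obtain ⟨f, u, h2, h3⟩ := geometric_hahn_banach_open_open (hc i) (ho i) (hc j) (ho j) (hd _ _ hij)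
    have a := h3 _ hy
    have b := h3 _ hq
    rw [map_add, map_smul, smul_eq_mul] at a b
    have c : 0 < f e := by nlinarith [h2 x hx]
    nlinarith [h2 p hp]
  have iv : ∀ i, ∀ x ∈ U i, ∀ y ∈ U i, ∀ h, η x ≤ h → h ≤ η y → ∃ p ∈ U i, η p = h := by
    intro i x hx y hy h a b
    exact ((hc i).linear_image η).ordConnected.out ⟨x, hx, rfl⟩ ⟨y, hy, rfl⟩ ⟨a, b⟩
  let r : ι → ι → Prop := fun i j => ∀ x ∈ U i, ∃ y ∈ U j, η x ≤ η y
  have rt : ∀ a b, r a b ∨ r b a := by
    intro a b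
    by_cases h : r a b
    · exact Or.inl h
    · right
      simp only [r] at h
      push Not at h
      obtain ⟨x, hx, h⟩ := h
      exact fun y hy => ⟨x, hx, (h y hy).le⟩
  have rtr : ∀ a b c, r a b → r b c → r a c := by
    intro a b c h1 h2 x hx
    obtain ⟨y, hy, e1⟩ := h1 x hx
    obtain ⟨z, hz, e2⟩ := h2 y hy
    exact ⟨z, hz, e1.trans e2⟩
  have main : ∀ s : Finset ι, s.Nonempty → ∃ m ∈ s, ∀ j ∈ s, ¬ R m j := by
    intro s
    induction s using Finset.strongInduction with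
    | H s ih =>
    intro hs
    obtain ⟨a, ha, hmin⟩ := tot_min r rt rtr s hs
    by_cases hne : (s.erase a).Nonempty
    · obtain ⟨m, hm, h⟩ := ih _ (Finset.erase_ssubset ha) hne
      have hms := Finset.mem_of_mem_erase hm
      by_cases hR : R m a
      · refine ⟨a, ha, fun k hk hR' => ?_⟩
        have hR1 := hR
        have hR2 := hR'
        obtain ⟨-, t, ht, x, hx, hy⟩ := hR
        obtain ⟨hak, t', ht', x', hx', hy'⟩ := hR'
        have e1 : η (x + t • e) = η x := by simp [h0]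
        have e2 : η (x' + t' • e) = η x' := by simp [h0]
        have hq : ∃ q ∈ U a, η x ≤ η q ∧ η x' ≤ η q := by
          rcases le_total (η x) (η x') with c | c
          · exact ⟨x', hx', c, le_rfl⟩
          · exact ⟨_, hy, e1.ge, by rw [e1]; exact c⟩
        obtain ⟨q, hq, c1, c2⟩ := hq
        obtain ⟨y1, hy1, d1⟩ := hmin m hms q hq
        obtain ⟨y2, hy2, d2⟩ := hmin k hk q hq
        obtain ⟨p1, hp1, g1⟩ := iv m x hx y1 hy1 _ c1 d1
        obtain ⟨p2, hp2, g2⟩ := iv k _ hy' y2 hy2 (η q) (by rw [e2]; exact c2) d2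
        obtain ⟨s1, k1⟩ := h1 (q - p1) (by rw [map_sub, g1, sub_self])
        obtain ⟨s2, k2⟩ := h1 (p2 - q) (by rw [map_sub, g2, sub_self])
        have q1 : p1 + s1 • e = q := by rw [← k1]; abel
        have q2 : q + s2 • e = p2 := by rw [← k2]; abel
        have t1 := A m a hR1 p1 hp1 s1 (by rwa [q1])
        have t2 := A a k hR2 q hq s2 (by rwa [q2])
        by_cases emk : m = k
        · subst emk
          have := A a m hR2 q hq (-s1) (by rw [← q1]; simpa using hp1)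
          linarith
        · refine h k (Finset.mem_erase.2 ⟨hak.symm, hk⟩) ⟨emk, s1 + s2, by linarith, p1, hp1, ?_⟩
          rwa [add_smul, ← add_assoc, q1, q2]
      · refine ⟨m, hms, fun j hj => ?_⟩
        by_cases c : j = a
        · rwa [c]
        · exact h j (Finset.mem_erase.2 ⟨c, hj⟩)
    · refine ⟨a, ha, fun j hj hR => hne ⟨j, Finset.mem_erase.2 ⟨hR.1.symm, hj⟩⟩⟩
  obtain ⟨m, -, h⟩ := main Finset.univ Finset.univ_nonempty
  exact ⟨m, e, he, fun t ht x hx j hj hy => h j (Finset.mem_univ _) ⟨hj.symm, t, ht, x, hx, hy⟩⟩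

end

theorem slide {n d : ℕ} (hn : 1 ≤ n) (hd : 1 ≤ d) (h : ¬ (3 ≤ d ∧ 6 ≤ n ∧ d + 2 ≤ n))
    (K : Fin n → Set (EuclideanSpace ℝ (Fin d))) (hc : ∀ i, Convex ℝ (K i))
    (hne : ∀ i, (interior (K i)).Nonempty)
    (hdis : ∀ i j, i ≠ j → Disjoint (interior (K i)) (interior (K j))) :
    Slide fun i => interior (K i) := by
  obtain ⟨m, rfl⟩ : ∃ m, n = m + 1 := ⟨n - 1, by omega⟩
  by_cases h1 : m ≤ d
  · exact slide_few _ (fun i => (hc i).interior) (fun i => isOpen_interior) hdis (by simpa using h1)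
      (by rw [finrank_euclideanSpace_fin]; omega)
  have : d = 1 ∨ d = 2 ∨ (d = 3 ∧ m = 4) := by omega
  rcases this with rfl | rfl | ⟨rfl, rfl⟩
  · refine slide_low _ (fun i => (hc i).interior) (fun i => isOpen_interior) hdis
      (EuclideanSpace.single 0 1) (by simp) 0 rfl fun w _ => ⟨w 0, ?_⟩
    ext i; fin_cases i; simp
  · refine slide_low _ (fun i => (hc i).interior) (fun i => isOpen_interior) hdis
      (EuclideanSpace.single 0 1) (by simp) (EuclideanSpace.projₗ 1) (by simp) fun w hw => ⟨w 0, ?_⟩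
    have : w 1 = 0 := hw
    ext i; fin_cases i <;> simp [this]
  · exact MP_0aa80c_co.main K hc hne hdis

/-- affine basis of a full-dimensional simplex -/
def bas {d : ℕ} (S : Affine.Simplex ℝ (EuclideanSpace ℝ (Fin d)) d) :
    AffineBasis (Fin (d + 1)) ℝ (EuclideanSpace ℝ (Fin d)) :=
  ⟨S.points, S.independent,
    S.independent.affineSpan_eq_top_iff_card_eq_finrank_add_one.2 (by simp)⟩

theorem only {n d : ℕ} (hn : 1 ≤ n) (hd : 1 ≤ d)
    (S : Fin n → Affine.Simplex ℝ (EuclideanSpace ℝ (Fin d)) d)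
    (h1 : ∀ i j, i ≠ j → Disjoint (interior (convexHull ℝ (range (S i).points)))
      (interior (convexHull ℝ (range (S j).points))))
    (h2 : ∀ i k, ∃ j, j ≠ i ∧ ∃ l, 0 < μH[(d : ℝ) - 1]
      (convexHull ℝ ((S i).points '' {k}ᶜ) ∩ convexHull ℝ ((S j).points '' {l}ᶜ))) :
    3 ≤ d ∧ 6 ≤ n ∧ d + 2 ≤ n := by
  by_contra h
  have : Nontrivial (Fin (d + 1)) := Fin.nontrivial_iff_two_le.2 (by omega)
  obtain ⟨i, v, hv, hs⟩ := slide hn hd h (fun i => convexHull ℝ (range (S i).points))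
    (fun i => convex_convexHull _ _)
    (fun i => ⟨_, (bas (S i)).centroid_mem_interior_convexHull⟩) h1
  obtain ⟨k, hk⟩ := down (bas (S i)) hv
  obtain ⟨j, hj, l, hm⟩ := h2 i k
  obtain ⟨t, ht, x, hx, hy⟩ := block (by simp) (bas (S i)) (bas (S j)) k l (h1 i j hj.symm) hm hk
  exact hs t ht x hx j hj hy

theorem build {n d : ℕ} (hd : 3 ≤ d) (h6 : 6 ≤ n) (hn : d + 2 ≤ n) :
    ∃ S : Fin n → Affine.Simplex ℝ (EuclideanSpace ℝ (Fin d)) d,
    (∀ i j, i ≠ j → Disjoint (interior (convexHull ℝ (range (S i).points)))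
      (interior (convexHull ℝ (range (S j).points)))) ∧
    ∀ i k, ∃ j, j ≠ i ∧ ∃ l, 0 < μH[(d : ℝ) - 1]
      (convexHull ℝ ((S i).points '' {k}ᶜ) ∩ convexHull ℝ ((S j).points '' {l}ᶜ)) := by
  obtain ⟨L, c, hN, hdis, hZ, -⟩ := exist hd h6 hn
  have : Nontrivial (Fin (d + 1)) := Fin.nontrivial_iff_two_le.2 (by omega)
  have hp : ∀ i, ∃ p, ∀ k, L i k p + c i k < 0 := by
    intro i
    obtain ⟨k0, k1, hk⟩ := exists_pair_ne (Fin (d + 1))
    obtain ⟨_, _, z0, -, a1, a2, -⟩ := hZ i k0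
    obtain ⟨_, _, z1, -, b1, b2, -⟩ := hZ i k1
    refine ⟨z0 + (1/2:ℝ) • (z1 - z0), fun k => ?_⟩
    rw [comb]
    by_cases e : k = k0
    · subst e; linarith [b2 k hk]
    · by_cases e' : k = k1
      · subst e'; linarith [a2 k e]
      · linarith [a2 k e, b2 k e']
  choose p hp using hp
  choose b α hα hb using fun i => mkBasis (by simp) (L i) (c i) (hN i) (p i) (hp i)
  have neg : ∀ i k x, 0 < (b i).coord k x ↔ L i k x + c i k < 0 := by
    intro i k x
    rw [hb]
    constructor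
    · intro h; by_contra hn; push Not at hn; nlinarith [hα i k]
    · intro h; nlinarith [hα i k]
  refine ⟨fun i => ⟨b i, (b i).ind⟩, fun i j hij => ?_, fun i k => ?_⟩
  · show Disjoint (interior (convexHull ℝ (range (b i)))) (interior (convexHull ℝ (range (b j))))
    rw [AffineBasis.interior_convexHull, AffineBasis.interior_convexHull, Set.disjoint_left]
    intro x h1 h2
    exact hdis i j x hij (fun k => (neg i k x).1 (h1 k)) (fun k => (neg j k x).1 (h2 k))
  · obtain ⟨j, l, z, c1, c2, c3, c4, c5⟩ := hZ i k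
    refine ⟨j, c1, l, ?_⟩
    show 0 < μH[(d : ℝ) - 1] (convexHull ℝ (b i '' {k}ᶜ) ∩ convexHull ℝ (b j '' {l}ᶜ))
    have hl : L i k ≠ 0 := by
      intro h
      have := hp i k
      rw [h] at this c2
      simp at this c2
      linarith
    have hU : IsOpen ((⋂ m : {m // m ≠ k}, {x | L i m x + c i m < 0}) ∩
        ⋂ m : {m // m ≠ l}, {x | L j m x + c j m < 0}) :=
      (isOpen_iInter_of_finite fun m : {m // m ≠ k} => isOpen_lt
        ((L i m).continuous_of_finiteDimensional.add continuous_const) continuous_const).inter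
      (isOpen_iInter_of_finite fun m : {m // m ≠ l} => isOpen_lt
        ((L j m).continuous_of_finiteDimensional.add continuous_const) continuous_const)
    refine lt_of_lt_of_le (hpos (d := d) (by simp) hl hU (z := z)
      ⟨mem_iInter.2 fun m => c3 m m.2, mem_iInter.2 fun m => c4 m m.2⟩) (measure_mono ?_)
    rintro x ⟨⟨x1, x2⟩, x3⟩
    have x3 : L i k x = L i k z := x3
    have e1 : (b i).coord k x = 0 := by rw [hb, x3, c2, mul_zero]
    have e2 : (b j).coord l x = 0 := by rw [hb, c5, x3, c2]; simp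
    rw [facet_eq, facet_eq]
    refine ⟨⟨fun m => ?_, e1⟩, ⟨fun m => ?_, e2⟩⟩
    · by_cases e : m = k
      · rw [e, e1]
      · exact ((neg i m x).2 (mem_iInter.1 x1 ⟨m, e⟩)).le
    · by_cases e : m = l
      · rw [e, e2]
      · exact ((neg j m x).2 (mem_iInter.1 x2 ⟨m, e⟩)).le

end Pool.Agent.H.MP_683378_co
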