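import Pool.Agent.H.MP_683378_co.Model

set_option autoImplicit false
open Filter Topology

namespace Pool.Agent.H.MP_683378_co

section
variable {E : Type} [NormedAddCommGroup E] [NormedSpace ℝ E]

/-- strict contact point of facet k of body i with facet l of body j -/
def Ct {ι κ : Type} (L : ι → κ → E →ₗ[ℝ] ℝ) (c : ι → κ → ℝ) (i : ι) (k : κ) (j : ι) (l : κ)
    (z : E) : Prop :=
  j ≠ i ∧ L i k z + c i k = 0 ∧ (∀ m, m ≠ k → L i m z + c i m < 0) ∧
    (∀ m, m ≠ l → L j m z + c j m < 0) ∧ ∀ x, L j l x + c j l = -(L i k x + c i k)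

/-- facet model -/
def GM (E : Type) [NormedAddCommGroup E] [NormedSpace ℝ E] (ι κ : Type) : Prop :=
  ∃ (L : ι → κ → E →ₗ[ℝ] ℝ) (c : ι → κ → ℝ),
    (∀ i v, (∀ k, L i k v ≤ 0) → v = 0) ∧
    (∀ i j x, i ≠ j → (∀ k, L i k x + c i k < 0) → (∀ k, L j k x + c j k < 0) → False) ∧
    (∀ i k, ∃ j l z, Ct L c i k j l z) ∧
    ∃ a k0 k1, k0 ≠ k1 ∧ ∀ k, k ≠ k0 → k ≠ k1 → ∃ j l y y0, Ct L c a k j l y ∧
      L a k y0 + c a k = 0 ∧ L a k0 y0 + c a k0 = 0 ∧ L a k1 y0 + c a k1 < 0 ∧
      (∀ m, L a m y0 + c a m ≤ 0) ∧ ∀ m, L j m y0 + c j m ≤ 0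

theorem toG {ι κ : Type} {adj : ι → ι → Prop} (hs : ∀ i j, adj i j → adj j i)
    (hi : ∀ i j, adj i j → i ≠ j) (e : ∀ i, κ ≃ {j // adj i j}) (h : CM E ι adj) : GM E ι κ := by
  obtain ⟨L, c, hanti, hN, hsep, hZ, a, k0, k1, hk0, hk1, hk, hI⟩ := h
  have inj : ∀ i m k, m ≠ k → (e i m).1 ≠ (e i k).1 := fun i m k h h' =>
    h ((e i).injective (Subtype.ext h'))
  have ct : ∀ i k, ∃ z, Ct (fun i k => L i (e i k).1) (fun i k => c i (e i k).1) i k (e i k).1
      ((e (e i k).1).symm ⟨i, hs _ _ (e i k).2⟩) z := by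
    intro i k
    obtain ⟨z, h1, h2, h3⟩ := hZ i (e i k).1 (e i k).2
    refine ⟨z, (hi _ _ (e i k).2).symm, h1, fun m hm => h2 _ (e i m).2 (inj i m k hm),
      fun m hm => h3 _ (e _ m).2 ?_, fun x => ?_⟩
    · have := inj (e i k).1 _ _ hm
      simpa using this
    · simp only [Equiv.apply_symm_apply]
      exact hanti _ _ (hi _ _ (e i k).2) x
  refine ⟨fun i k => L i (e i k).1, fun i k => c i (e i k).1, fun i v hv => hN i v fun j hj => ?_,
    fun i j x hij h1 h2 => ?_, fun i k => ⟨_, _, ct i k⟩, a, (e a).symm ⟨k0, hk0⟩,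
    (e a).symm ⟨k1, hk1⟩, fun h => hk (by simpa using h), fun k h0 h1 => ?_⟩
  · simpa using hv ((e i).symm ⟨j, hj⟩)
  · have a1 := hsep i j x hij fun k hk => by simpa using h1 ((e i).symm ⟨k, hk⟩)
    have a2 := hsep j i x hij.symm fun k hk => by simpa using h2 ((e j).symm ⟨k, hk⟩)
    linarith [hanti i j hij x]
  · obtain ⟨z, hz⟩ := ct a k
    obtain ⟨y, y1, y2, y3, y4, y5⟩ := hI (e a k).1 (e a k).2 (by simpa using inj a _ _ h0)
      (by simpa using inj a _ _ h1)
    exact ⟨_, _, z, y, hz, y1, by simpa using y2, by simpa using y3, fun m => y4 _ (e a m).2,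
      fun m => y5 _ (e _ m).2⟩

theorem comb (L : E →ₗ[ℝ] ℝ) (c : ℝ) (x y : E) (s : ℝ) :
    L (x + s • (y - x)) + c = (1 - s) * (L x + c) + s * (L y + c) := by
  simp only [map_add, map_smul, map_sub, smul_eq_mul]; ring

theorem split {ι κ : Type} [Finite ι] [Finite κ] (h : GM E ι κ) : GM E (Option ι) κ := by
  classical
  obtain ⟨L, c, hN, hd, hZ, a, k0, k1, hk, hI⟩ := h
  choose J l z hz using hZ
  have hρ : ∀ᶠ ρ in (atTop : Filter ℝ), 0 < ρ ∧ ∀ i k, L a k0 (z i k) + c a k0 < 0 →
      0 < L a k1 (z i k) + c a k1 - ρ * (L a k0 (z i k) + c a k0) := by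
    refine (eventually_gt_atTop 0).and ?_
    simp only [eventually_all]
    intro i k h
    filter_upwards [eventually_gt_atTop
      ((L a k1 (z i k) + c a k1) / (L a k0 (z i k) + c a k0))] with ρ hρ
    rw [div_lt_iff_of_neg h] at hρ
    linarith
  obtain ⟨ρ, hρ0, hρ⟩ := hρ.exists
  let L' : Option ι → κ → E →ₗ[ℝ] ℝ := fun i k => match i with
    | none => if k = k0 then -(L a k1 - ρ • L a k0) else L a k
    | some i => if i = a ∧ k = k1 then L a k1 - ρ • L a k0 else L i k
  let c' : Option ι → κ → ℝ := fun i k => match i with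
    | none => if k = k0 then -(c a k1 - ρ * c a k0) else c a k
    | some i => if i = a ∧ k = k1 then c a k1 - ρ * c a k0 else c i k
  have n0 : ∀ x, L' none k0 x + c' none k0
      = -(L a k1 x + c a k1 - ρ * (L a k0 x + c a k0)) := by
    intro x; simp [L', c']; ring
  have n1 : ∀ k, k ≠ k0 → ∀ x, L' none k x + c' none k = L a k x + c a k := by
    intro k h x; simp [L', c', h]
  have s0 : ∀ x, L' (some a) k1 x + c' (some a) k1
      = L a k1 x + c a k1 - ρ * (L a k0 x + c a k0) := by
    intro x; simp [L', c']; ring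
  have s1 : ∀ k, k ≠ k1 → ∀ x, L' (some a) k x + c' (some a) k = L a k x + c a k := by
    intro k h x; simp [L', c', h]
  have s2 : ∀ i, i ≠ a → ∀ k x, L' (some i) k x + c' (some i) k = L i k x + c i k := by
    intro i h k x; simp [L', c', h]
  have lin : ∀ i k v, L' i k v = (L' i k v + c' i k) - (L' i k 0 + c' i k) := by
    intro i k v; simp
  clear_value L' c'
  have sub0 : ∀ x, (∀ k, L' none k x + c' none k < 0) → ∀ k, L a k x + c a k < 0 := by
    intro x h k
    by_cases e : k = k0
    · have h1 := h k0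
      have h2 := h k1
      rw [n0] at h1
      rw [n1 k1 hk.symm] at h2
      rw [e]
      nlinarith
    · rw [← n1 k e]; exact h k
  have sub1 : ∀ i x, (∀ k, L' (some i) k x + c' (some i) k < 0) → ∀ k, L i k x + c i k < 0 := by
    intro i x h k
    by_cases e' : i = a
    · subst e'
      by_cases e : k = k1
      · have h1 := h k0
        have h2 := h k1
        rw [s0] at h2
        rw [s1 k0 hk] at h1
        rw [e]
        nlinarith
      · rw [← s1 k e]; exact h k
    · rw [← s2 i e']; exact h k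
  have sn : ∀ {i j : ι}, j ≠ i → some j ≠ some i := fun h e => h (Option.some.inj e)
  have cut : ∃ x, L a k1 x + c a k1 - ρ * (L a k0 x + c a k0) = 0 ∧ ∀ k, L a k x + c a k < 0 := by
    obtain ⟨-, p1, p2, -⟩ := hz a k0
    obtain ⟨-, q1, q2, -⟩ := hz a k1
    have A := p2 k1 hk.symm
    have B := q2 k0 hk
    set s := -(L a k1 (z a k0) + c a k1) /
      (-(L a k1 (z a k0) + c a k1) - ρ * (L a k0 (z a k1) + c a k0)) with hs
    have hD : 0 < -(L a k1 (z a k0) + c a k1) - ρ * (L a k0 (z a k1) + c a k0) := by nlinarith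
    have s0 : 0 < s := div_pos (by linarith) hD
    have s1 : s < 1 := by rw [hs, div_lt_one hD]; nlinarith
    refine ⟨z a k0 + s • (z a k1 - z a k0), ?_, fun k => ?_⟩
    · rw [comb, comb, p1, q1, hs]; field_simp; ring
    · rw [comb]
      by_cases e : k = k0
      · rw [e, p1]; nlinarith
      · by_cases e' : k = k1
        · rw [e', q1]; nlinarith
        · nlinarith [p2 k e, q2 k e']
  obtain ⟨x0, hx0, hx1⟩ := cut
  have hI' : ∀ k, k ≠ k0 → k ≠ k1 → ∃ j l y y0, Ct L' c' (some a) k j l y ∧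
      L' (some a) k y0 + c' (some a) k = 0 ∧ L' (some a) k0 y0 + c' (some a) k0 = 0 ∧
      L' (some a) k1 y0 + c' (some a) k1 < 0 ∧
      (∀ m, L' (some a) m y0 + c' (some a) m ≤ 0) ∧ ∀ m, L' j m y0 + c' j m ≤ 0 := by
    intro k h0 h1
    obtain ⟨j, l, y, y0, ⟨c1, c2, c3, c4, c5⟩, y1, y2, y3, y4, y5⟩ := hI k h0 h1
    have G0 : L' (some a) k1 y0 + c' (some a) k1 < 0 := by rw [s0, y2]; linarith
    have ev : ∀ᶠ s in 𝓝 (0:ℝ), (1 - s) * (L' (some a) k1 y0 + c' (some a) k1)
        + s * (L' (some a) k1 y + c' (some a) k1) < 0 ∧ s - 1 < 0 :=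
      (ev_lt (by fun_prop) (by simpa using G0)).and (ev_lt (by fun_prop) (by simp))
    obtain ⟨s, ⟨t1, t2⟩, t3⟩ := (ev.filter_mono
      (nhdsWithin_le_nhds (s := Set.Ioi 0)) |>.and self_mem_nhdsWithin).exists
    have t3 : 0 < s := t3
    refine ⟨some j, l, y0 + s • (y - y0), y0, ⟨sn c1, ?_, fun m hm => ?_, fun m hm => ?_,
      fun x => ?_⟩, by rw [s1 k h1, y1], by rw [s1 k0 hk, y2], G0, fun m => ?_, fun m => ?_⟩
    · rw [s1 k h1, comb, c2, y1]; ring
    · by_cases e : m = k1
      · rw [e, comb]; exact t1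
      · rw [s1 m e, comb]; nlinarith [c3 m hm, y4 m]
    · rw [s2 j c1, comb]; nlinarith [c4 m hm, y5 m]
    · rw [s2 j c1, s1 k h1, c5]
    · by_cases e : m = k1
      · rw [e]; exact G0.le
      · rw [s1 m e]; exact y4 m
    · rw [s2 j c1]; exact y5 m
  refine ⟨L', c', ?_, ?_, ?_, some a, k0, k1, hk, hI'⟩
  · intro i v hv
    have hv' : ∀ k, (L' i k v + c' i k) - (L' i k 0 + c' i k) ≤ 0 := fun k => by
      rw [← lin]; exact hv k
    rcases i with _ | i
    · refine hN a v fun k => ?_
      have h1 := hv' k1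
      rw [n1 k1 hk.symm, n1 k1 hk.symm, map_zero] at h1
      by_cases e : k = k0
      · have h2 := hv' k0
        rw [n0, n0, map_zero, map_zero] at h2
        rw [e]
        nlinarith
      · have h2 := hv' k
        rw [n1 k e, n1 k e, map_zero] at h2
        linarith
    · by_cases e' : i = a
      · subst e'
        refine hN i v fun k => ?_
        have h1 := hv' k0
        rw [s1 k0 hk, s1 k0 hk, map_zero] at h1
        by_cases e : k = k1
        · have h2 := hv' k1
          rw [s0, s0, map_zero, map_zero] at h2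
          rw [e]
          nlinarith
        · have h2 := hv' k
          rw [s1 k e, s1 k e, map_zero] at h2
          linarith
      · refine hN i v fun k => ?_
        have h2 := hv' k
        rw [s2 i e', s2 i e', map_zero] at h2
        linarith
  · have key : ∀ j x, (∀ k, L' none k x + c' none k < 0) →
        (∀ k, L' (some j) k x + c' (some j) k < 0) → False := by
      intro j x h1 h2
      by_cases e : j = a
      · subst e
        have a1 := h1 k0
        have a2 := h2 k1
        rw [n0] at a1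
        rw [s0] at a2
        linarith
      · exact hd a j x (Ne.symm e) (sub0 x h1) (sub1 j x h2)
    rintro (_ | i) (_ | j) x hij h1 h2
    · exact hij rfl
    · exact key j x h1 h2
    · exact key i x h2 h1
    · exact hd i j x (fun e => hij (by rw [e])) (sub1 i x h1) (sub1 j x h2)
  · rintro (_ | i) k
    · by_cases e : k = k0
      · subst e
        refine ⟨some a, k1, x0, by simp, by rw [n0, hx0, neg_zero], fun m hm => ?_,
          fun m hm => ?_, fun x => by rw [n0, s0, neg_neg]⟩
        · rw [n1 m hm]; exact hx1 m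
        · rw [s1 m hm]; exact hx1 m
      · obtain ⟨c1, c2, c3, c4, c5⟩ := hz a k
        refine ⟨some (J a k), l a k, z a k, by simp, by rw [n1 k e, c2], fun m hm => ?_,
          fun m hm => ?_, fun x => by rw [s2 _ c1, n1 k e, c5]⟩
        · by_cases e' : m = k0
          · rw [e', n0]; linarith [hρ a k (c3 k0 (Ne.symm e))]
          · rw [n1 m e']; exact c3 m hm
        · rw [s2 _ c1]; exact c4 m hm
    · by_cases ea : i = a
      · subst ea
        by_cases e : k = k1
        · subst e
          refine ⟨none, k0, x0, by simp, by rw [s0, hx0], fun m hm => ?_,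
            fun m hm => ?_, fun x => by rw [n0, s0]⟩
          · rw [s1 m hm]; exact hx1 m
          · rw [n1 m hm]; exact hx1 m
        · by_cases e' : k = k0
          · subst e'
            obtain ⟨c1, c2, c3, c4, c5⟩ := hz i k
            refine ⟨some (J i k), l i k, z i k, sn c1, by rw [s1 k e, c2], fun m hm => ?_,
              fun m hm => ?_, fun x => by rw [s2 _ c1, s1 k e, c5]⟩
            · by_cases e2 : m = k1
              · rw [e2, s0, c2]; linarith [c3 k1 hk.symm]
              · rw [s1 m e2]; exact c3 m hm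
            · rw [s2 _ c1]; exact c4 m hm
          · obtain ⟨j, l, y, -, h, -⟩ := hI' k e' e
            exact ⟨j, l, y, h⟩
      · obtain ⟨c1, c2, c3, c4, c5⟩ := hz i k
        by_cases ej : J i k = a
        · rw [ej] at c4 c5
          by_cases el : l i k = k0
          · rw [el] at c4 c5
            refine ⟨some a, k0, z i k, sn (Ne.symm ea), by rw [s2 i ea, c2], fun m hm => ?_,
              fun m hm => ?_, fun x => by rw [s2 i ea, s1 k0 hk, c5]⟩
            · rw [s2 i ea]; exact c3 m hm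
            · by_cases e2 : m = k1
              · rw [e2, s0, c5, c2]; linarith [c4 k1 hk.symm]
              · rw [s1 m e2]; exact c4 m hm
          · refine ⟨none, l i k, z i k, by simp, by rw [s2 i ea, c2], fun m hm => ?_,
              fun m hm => ?_, fun x => by rw [s2 i ea, n1 _ el, c5]⟩
            · rw [s2 i ea]; exact c3 m hm
            · by_cases e2 : m = k0
              · rw [e2, n0]; linarith [hρ i k (c4 k0 (Ne.symm el))]
              · rw [n1 m e2]; exact c4 m hm
        · refine ⟨some (J i k), l i k, z i k, sn c1, by rw [s2 i ea, c2], fun m hm => ?_,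
            fun m hm => ?_, fun x => by rw [s2 i ea, s2 _ ej, c5]⟩
          · rw [s2 i ea]; exact c3 m hm
          · rw [s2 _ ej]; exact c4 m hm

theorem GM.move {E' : Type} [NormedAddCommGroup E'] [NormedSpace ℝ E'] {ι ι' κ : Type}
    (T : E' ≃ₗ[ℝ] E) (e : ι' ≃ ι) (h : GM E ι κ) : GM E' ι' κ := by
  obtain ⟨L, c, hN, hd, hZ, a, k0, k1, hk, hI⟩ := h
  have ct : ∀ i k j l z, Ct L c (e i) k j l z → Ct (fun i k => L (e i) k ∘ₗ T.toLinearMap)
      (fun i k => c (e i) k) i k (e.symm j) l (T.symm z) := by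
    rintro i k j l z ⟨c1, c2, c3, c4, c5⟩
    refine ⟨fun h => c1 (by rw [← h]; simp), by simpa using c2, by simpa using c3,
      by simpa using c4, fun x => by simpa using c5 (T x)⟩
  refine ⟨fun i k => L (e i) k ∘ₗ T.toLinearMap, fun i k => c (e i) k, fun i v hv => ?_,
    fun i j x hij h1 h2 => hd (e i) (e j) (T x) (e.injective.ne hij) h1 h2, fun i k => ?_,
    e.symm a, k0, k1, hk, fun k h0 h1 => ?_⟩
  · exact T.map_eq_zero_iff.1 (hN (e i) (T v) hv)
  · obtain ⟨j, l, z, h⟩ := hZ (e i) k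
    exact ⟨_, _, _, ct i k j l z h⟩
  · obtain ⟨j, l, y, y0, h, y1, y2, y3, y4, y5⟩ := hI k h0 h1
    refine ⟨e.symm j, l, T.symm y, T.symm y0, ct _ k j l y (by simpa using h), by simpa using y1,
      by simpa using y2, by simpa using y3, by simpa using y4, by simpa using y5⟩

theorem GM.more {κ : Type} [Finite κ] {n m : ℕ} (h : GM E (Fin n) κ) (hm : n ≤ m) :
    GM E (Fin m) κ := by
  induction hm with
  | refl => exact h
  | step _ ih => exact (split ih).move (LinearEquiv.refl ℝ E) (finSuccEquiv' 0)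

end

theorem tower (h4 : CM (Fin 4 → ℝ) (Fin 6) (· ≠ ·)) (m : ℕ) :
    ∃ (E : Type) (_ : NormedAddCommGroup E) (_ : NormedSpace ℝ E) (_ : FiniteDimensional ℝ E)
      (ι : Type) (_ : Fintype ι), Module.finrank ℝ E = m + 4 ∧ Fintype.card ι = m + 6 ∧
      CM E ι (· ≠ ·) := by
  induction m with
  | zero => exact ⟨Fin 4 → ℝ, inferInstance, inferInstance, inferInstance, Fin 6, inferInstance,
      by simp, by simp, h4⟩
  | succ m ih =>
    obtain ⟨E, _, _, _, ι, _, h1, h2, h3⟩ := ih
    exact ⟨E × ℝ, inferInstance, inferInstance, inferInstance, Option ι, inferInstance,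
      by simp [h1], by simp [h2], lift (by omega) h3⟩

theorem high (h4 : CM (Fin 4 → ℝ) (Fin 6) (· ≠ ·)) {d n : ℕ} (hd : 4 ≤ d) (hn : d + 2 ≤ n) :
    GM (EuclideanSpace ℝ (Fin d)) (Fin n) (Fin (d + 1)) := by
  classical
  obtain ⟨m, rfl⟩ : ∃ m, d = m + 4 := ⟨d - 4, by omega⟩
  obtain ⟨E, _, _, _, ι, _, h1, h2, h3⟩ := tower h4 m
  have g := toG (κ := Fin (m + 4 + 1)) (fun i j h => Ne.symm h) (fun i j h => h)
    (fun i => Fintype.equivOfCardEq (by
      have := Fintype.card_subtype_compl (fun j : ι => i = j)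
      simp only [Fintype.card_fin]
      rw [Fintype.card_subtype_eq', h2] at this
      exact this.symm)) h3
  exact (g.move (LinearEquiv.ofFinrankEq _ _ (by simp [h1]))
    (Fintype.equivFinOfCardEq h2).symm).more hn

end Pool.Agent.H.MP_683378_co
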